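import Pool.Agent.ETN.Defs
import Pool.Agent.CSG.PlI
import Pool.Agent.CS2.RatB

/-!
# `k` is algebraically closed in `K`

Let `k'` be the algebraic closure of `k` in `K`. The field `k'(x)` is `k(x)` or `K`, because the degree is prime. In
the first case `k' = k`: if `a = r(x)/s(x)` is algebraic over `k` and not in `k`, then `x` is a zero of `r - a s`. In the
second case `t = r(x)/s(x)` with `r`, `s` over `k'`, so `|t|` is a power of `|x|`, which contradicts `|x| |t|^m = 1`.
-/

open scoped BigOperators Polynomial
open Polynomial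

namespace Pool.Agent.ETN

open Pool.Agent.CST Pool.Agent.CSG

private theorem csk_bot {k K : Type} [Field k] [Field K] [Algebra k K] {x a : K}
    (hx : Transcendental k x) (ha : IsAlgebraic k a)
    (hm : a ∈ IntermediateField.adjoin k {x}) : ∃ q : k, algebraMap k K q = a := by
  obtain ⟨r, s, hrs⟩ := (IntermediateField.mem_adjoin_simple_iff k a).1 hm
  by_cases hs : aeval x s = 0
  · refine ⟨0, ?_⟩
    rw [hrs, hs, div_zero, map_zero]
  have h1 : a * aeval x s = aeval x r := by
    rw [hrs, div_mul_cancel₀ _ hs]
  set k' : IntermediateField k K := algebraicClosure k K with hk'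
  have ha' : a ∈ k' := mem_algebraicClosure_iff.2 ha
  have htr : Transcendental k' x := fun h => hx (h.restrictScalars k)
  have hP : r.map (algebraMap k k') - C (⟨a, ha'⟩ : k') * s.map (algebraMap k k') = 0 := by
    refine transcendental_iff.1 htr _ ?_
    rw [map_sub, map_mul, aeval_C, aeval_map_algebraMap, aeval_map_algebraMap]
    have h2 : algebraMap k' K ⟨a, ha'⟩ = a := rfl
    rw [h2, h1, sub_self]
  have hs0 : s ≠ 0 := by
    rintro rfl
    exact hs (map_zero _)
  have h3 : s.leadingCoeff ≠ 0 := leadingCoeff_ne_zero.2 hs0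
  have h4 := congrArg (fun P => P.coeff s.natDegree) hP
  simp only [coeff_sub, coeff_C_mul, coeff_map, coeff_zero] at h4
  refine ⟨r.coeff s.natDegree / s.leadingCoeff, ?_⟩
  have h5 : algebraMap k K (r.coeff s.natDegree) = a * algebraMap k K s.leadingCoeff := by
    have h6 := congrArg (algebraMap k' K) (sub_eq_zero.1 h4)
    rw [map_mul, ← IsScalarTower.algebraMap_apply, ← IsScalarTower.algebraMap_apply] at h6
    exact h6
  rw [map_div₀, h5, mul_div_cancel_right₀]
  exact (_root_.map_ne_zero _).2 h3

private theorem csk_val {k K : Type} [Field k] [CharZero k] [Field K] [CharZero K] [Algebra k K]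
    (hk : Algebra.IsAlgebraic ℚ k) {O : ValuationSubring K} (hO : IsPl O) {x : K} (hxO : x ∉ O)
    (r : k[X]) (hr : r ≠ 0) : O.valuation (aeval x r) = O.valuation x ^ r.natDegree := by
  have hx1 : 1 < O.valuation x := by
    rw [← not_le, O.valuation_le_one_iff]
    exact hxO
  have hc : ∀ c : k, c ≠ 0 → O.valuation (algebraMap k K c) = 1 := by
    intro c hc
    have h1 : O.valuation (algebraMap k K c) ≤ 1 :=
      (O.valuation_le_one_iff _).2 (const_mem hk hO c)
    have h2 : O.valuation (algebraMap k K c⁻¹) ≤ 1 :=
      (O.valuation_le_one_iff _).2 (const_mem hk hO c⁻¹)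
    rw [map_inv₀, map_inv₀] at h2
    have h3 : O.valuation (algebraMap k K c) ≠ 0 :=
      (O.valuation.ne_zero_iff).2 ((_root_.map_ne_zero _).2 hc)
    exact le_antisymm h1 ((inv_le_one₀ (zero_lt_iff.2 h3)).1 h2)
  have hc1 : ∀ c : k, O.valuation (algebraMap k K c) ≤ 1 := fun c =>
    (O.valuation_le_one_iff _).2 (const_mem hk hO c)
  rw [aeval_eq_sum_range, Finset.sum_range_succ]
  have hlead : O.valuation (r.coeff r.natDegree • x ^ r.natDegree) =
      O.valuation x ^ r.natDegree := by
    rw [Algebra.smul_def, map_mul, hc (r.coeff r.natDegree) (mt leadingCoeff_eq_zero.1 hr), one_mul,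
      map_pow]
  have hpos : O.valuation x ^ r.natDegree ≠ 0 :=
    pow_ne_zero _ (ne_of_gt (lt_trans zero_lt_one hx1))
  have hrest : O.valuation (∑ i ∈ Finset.range r.natDegree, r.coeff i • x ^ i) <
      O.valuation (r.coeff r.natDegree • x ^ r.natDegree) := by
    rw [hlead]
    refine Valuation.map_sum_lt _ hpos ?_
    intro i hi
    rw [Algebra.smul_def, map_mul, map_pow]
    calc O.valuation (algebraMap k K (r.coeff i)) * O.valuation x ^ i
        ≤ 1 * O.valuation x ^ i := mul_le_mul_left (hc1 _) _
      _ = O.valuation x ^ i := one_mul _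
      _ < O.valuation x ^ r.natDegree := pow_lt_pow_right₀ hx1 (Finset.mem_range.1 hi)
  rw [Valuation.map_add_eq_of_lt_right _ hrest, hlead]

theorem cst_of_pole {k K : Type} [Field k] [CharZero k] [Field K] [CharZero K] [Algebra k K]
    (hk : Algebra.IsAlgebraic ℚ k) {x : K} (hx : Transcendental k x) {m : ℕ}
    (hm : m.Prime) (hK : Module.finrank (IntermediateField.adjoin k {x}) K = m)
    {O : ValuationSubring K} (hO : IsPl O) (hxO : x ∉ O) {t : K}
    (ht : O.valuation (x * t ^ m) = 1) : CstK k K := by
  intro a ha
  set k' : IntermediateField k K := algebraicClosure k K with hk'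
  have ha' : a ∈ k' := mem_algebraicClosure_iff.2 ha
  set M : IntermediateField k' K := IntermediateField.adjoin k' {x} with hM
  have hxM : x ∈ M := IntermediateField.mem_adjoin_simple_self _ _
  have haM : a ∈ M := M.algebraMap_mem ⟨a, ha'⟩
  have hle : IntermediateField.adjoin k {x} ≤ M.restrictScalars k := by
    rw [IntermediateField.adjoin_le_iff]
    intro y hy
    rw [Set.mem_singleton_iff.1 hy]
    exact hxM
  have hsimple : IsSimpleOrder (IntermediateField (IntermediateField.adjoin k {x}) K) :=
    IntermediateField.isSimpleOrder_of_finrank_prime _ _ (by rw [hK]; exact hm)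
  rcases hsimple.eq_bot_or_eq_top (IntermediateField.extendScalars hle) with h | h
  · refine csk_bot hx ha ?_
    have h1 : a ∈ IntermediateField.extendScalars hle := haM
    rw [h, IntermediateField.mem_bot] at h1
    obtain ⟨y, hy⟩ := h1
    rw [← hy]
    exact y.2
  · exfalso
    have htM : t ∈ M := by
      have h1 : t ∈ IntermediateField.extendScalars hle := by
        rw [h]
        exact IntermediateField.mem_top
      exact h1
    have hk'' : Algebra.IsAlgebraic k k' := algebraicClosure.isAlgebraic k K
    have hkk : Algebra.IsAlgebraic ℚ k' := Algebra.IsAlgebraic.trans ℚ k k'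
    have hx1 : 1 < O.valuation x := by
      rw [← not_le, O.valuation_le_one_iff]
      exact hxO
    have ht0 : t ≠ 0 := by
      rintro rfl
      rw [zero_pow hm.ne_zero, mul_zero, map_zero] at ht
      exact zero_ne_one ht
    obtain ⟨r, s, hrs⟩ := (IntermediateField.mem_adjoin_simple_iff k' t).1 htM
    have hr : r ≠ 0 := by
      rintro rfl
      rw [map_zero, zero_div] at hrs
      exact ht0 hrs
    have hs : s ≠ 0 := by
      rintro rfl
      rw [map_zero, div_zero] at hrs
      exact ht0 hrs
    have hv : O.valuation t * O.valuation x ^ s.natDegree = O.valuation x ^ r.natDegree := by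
      have h1 : aeval x s ≠ 0 := by
        intro h0
        rw [h0, div_zero] at hrs
        exact ht0 hrs
      rw [← csk_val hkk hO hxO s hs, ← csk_val hkk hO hxO r hr, ← map_mul, hrs,
        div_mul_cancel₀ _ h1]
    have hpow : O.valuation x ^ (1 + m * r.natDegree) = O.valuation x ^ (m * s.natDegree) := by
      have h1 : O.valuation (x * t ^ m) * O.valuation x ^ (m * s.natDegree) =
          O.valuation x ^ (m * s.natDegree) := by rw [ht, one_mul]
      rw [map_mul, map_pow] at h1
      rw [← h1, mul_comm m s.natDegree, pow_mul, mul_assoc, ← mul_pow, hv, pow_add, pow_one,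
        mul_comm m r.natDegree, pow_mul]
    have hinj := pow_right_injective₀ (lt_trans zero_lt_one hx1) (ne_of_gt hx1)
    have h2 : 1 + m * r.natDegree = m * s.natDegree := hinj hpow
    have h3 : m ∣ 1 := by
      have h4 : m ∣ 1 + m * r.natDegree := by
        rw [h2]
        exact Dvd.intro _ rfl
      exact (Nat.dvd_add_left (Dvd.intro _ rfl)).1 h4
    exact hm.one_lt.ne' (Nat.dvd_one.1 h3)

end Pool.Agent.ETN
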