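import Pool.Agent.ETU.Defs
import Pool.Agent.CSG.Pqk

/-!
# Definitions (EveryTuple over a number field of constants `k`)

As in `ETU.Defs`, with polynomials over `k` and an embedding `τ` of `k` into an algebraic closure
of `ℚ_[p]`.
-/

open scoped BigOperators Polynomial
open Polynomial

namespace Pool.Agent.ETN

open Pool.Agent.ETU Pool.Agent.CSG Pool.Agent.Helper11 Pool.Agent.ISI

/-- at the zeros of `P` the product of the `f i ^ a i` is a root of unity -/
def RelK (k : Type) [Field k] {r : ℕ} (f : Fin r → ℤ[X]) (a : Fin r → ℤ) (P : k[X]) : Prop :=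
  ∃ n : ℕ, 0 < n ∧ P ∣ ((Ap f a) ^ n - (Ap f (-a)) ^ n).map (Int.castRingHom k)

/-- the value at `(α, w)` of a polynomial in two variables with coefficients mapped by `τ` -/
noncomputable def ev3 {k M : Type} [Field k] [Field M] (τ : k →+* M) (α w : M) : k[X][X] →+* M :=
  eval₂RingHom (eval₂RingHom τ α) w

/-- over the circle `‖α‖ = 1` the roots `w` of `E(α, Y)` satisfy `‖w‖ ^ (m e) = ‖p‖ ^ h`, `m ∤ h` -/
def RamK (p m : ℕ) [Fact p.Prime] {k : Type} [Field k] (τ : k →+* PadicAlgCl p) (E : k[X][X]) :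
    Prop :=
  ∀ α w : PadicAlgCl p, ‖α‖ = 1 → ev3 τ α w E = 0 →
    ∃ (e : ℕ) (h : ℤ), 0 < e ∧ ¬ (m : ℤ) ∣ h ∧
      ‖w‖ ^ (m * e) = ‖((p : ℕ) : PadicAlgCl p)‖ ^ h

/-- the pole weights of the equation -/
structure WtsK {k : Type} [Field k] (m : ℕ) (E : k[X][X]) : Prop where
  mon : E.Monic
  deg : E.natDegree = m
  zero : ¬ m ∣ (E.coeff 0).natDegree
  lt : ∀ b, 0 < b → b < m → E.coeff b ≠ 0 →
    m * (E.coeff b).natDegree + b * (E.coeff 0).natDegree < m * (E.coeff 0).natDegree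

/-- the combinations of symbols `{f i (x), q(x)}`, `q` over `k`, and of symbols of two polynomials
in `x` over `ℚ` -/
noncomputable def CCk (k : Type) {K : Type} [Field k] [CharZero k] [Field K] [CharZero K]
    [Algebra k K] (x : K) {r : ℕ} (f : Fin r → ℤ[X]) : Submodule ℚ (KMQ K 2) :=
  Submodule.span ℚ {z | ∃ (i : Fin r) (q : k[X]), q ≠ 0 ∧
    z = sy (pqk x ((f i).map (Int.castRingHom k))) (pqk x q)} ⊔ LP x

end Pool.Agent.ETN
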