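import Pool.Agent.ETN.Defs
import Pool.Agent.CS2.RatB

/-!
# MODULE ETN-Eqk : the equation of a curve with a totally ramified pole, over `k`

`w = q(x) π`, `π` a uniformizer at the pole, integral over `k[x]`. Its order is prime to `m`, so it generates `K` over
`k(x)`, and the orders of the terms of its equation of degree `m` over `k[x]` are distinct modulo `m`, except for the first
and the last one.
-/

open scoped BigOperators Polynomial
open Polynomial

namespace Pool.Agent.ETN

open Pool.Agent.ETU Pool.Agent.CST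

private theorem eqk_core {K : Type*} [Field K] {Γ : Type*} [LinearOrderedCommGroupWithZero Γ]
    (v : Valuation K Γ) {γ : Γ} (hγ0 : γ ≠ 0) (hγ1 : γ < 1) {m : ℕ} (T : ℕ → K) (n : ℕ → ℤ)
    (h : ∀ b, b ≤ m → T b ≠ 0 → v (T b) = γ ^ (n b)) (hT : T m ≠ 0)
    (hsum : ∑ b ∈ Finset.range (m + 1), T b = 0)
    (hdist : ∀ b b', b < b' → b' ≤ m → T b ≠ 0 → T b' ≠ 0 → n b = n b' → b = 0 ∧ b' = m) :
    T 0 ≠ 0 ∧ n 0 = n m ∧ ∀ b, 0 < b → b < m → T b ≠ 0 → n m < n b := by
  classical
  have hγ : 0 < γ := zero_lt_iff.2 hγ0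
  obtain ⟨b0, hb0, hmax⟩ := Finset.exists_max_image
    ((Finset.range (m + 1)).filter fun b => T b ≠ 0) (fun b => v (T b))
    ⟨m, Finset.mem_filter.2 ⟨Finset.self_mem_range_succ m, hT⟩⟩
  rw [Finset.mem_filter, Finset.mem_range] at hb0
  have hv0 : v (T b0) ≠ 0 := (v.ne_zero_iff).2 hb0.2
  have hle : ∀ b, b ≤ m → v (T b) ≤ v (T b0) := by
    intro b hb
    by_cases h0 : T b = 0
    · rw [h0, map_zero]; exact zero_le
    · exact hmax b (Finset.mem_filter.2 ⟨Finset.mem_range.2 (by omega), h0⟩)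
  obtain ⟨b1, hb1, hne, hT1, heq⟩ : ∃ b1, b1 ≤ m ∧ b1 ≠ b0 ∧ T b1 ≠ 0 ∧ v (T b1) = v (T b0) := by
    by_contra hcon
    push Not at hcon
    have h1 : v (∑ b ∈ (Finset.range (m + 1)).erase b0, T b) < v (T b0) := by
      refine v.map_sum_lt hv0 fun b hb => ?_
      rw [Finset.mem_erase, Finset.mem_range] at hb
      by_cases h0 : T b = 0
      · rw [h0, map_zero]; exact zero_lt_iff.2 hv0
      · exact lt_of_le_of_ne (hle b (by omega)) (hcon b (by omega) hb.1 h0)
    have h2 := Finset.add_sum_erase (Finset.range (m + 1)) T (Finset.mem_range.2 hb0.1)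
    rw [hsum] at h2
    rw [← v.map_neg (T b0), ← eq_neg_of_add_eq_zero_right h2] at h1
    exact lt_irrefl _ h1
  have hn : n b1 = n b0 := by
    rw [h b1 hb1 hT1, h b0 (by omega) hb0.2] at heq
    exact zpow_right_injective₀ hγ hγ1.ne heq
  have key : T 0 ≠ 0 ∧ n 0 = n m ∧ v (T m) = v (T b0) := by
    rcases lt_or_gt_of_ne hne with hlt | hlt
    · obtain ⟨e1, e2⟩ := hdist b1 b0 hlt (by omega) hT1 hb0.2 hn
      subst e1; subst e2
      exact ⟨hT1, hn, rfl⟩
    · obtain ⟨e1, e2⟩ := hdist b0 b1 hlt hb1 hb0.2 hT1 hn.symm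
      subst e1; subst e2
      exact ⟨hb0.2, hn.symm, heq⟩
  refine ⟨key.1, key.2.1, fun b hb1 hb2 hb3 => ?_⟩
  have h1 := hle b hb2.le
  rw [← key.2.2, h b hb2.le hb3, h m le_rfl hT,
    zpow_le_zpow_iff_right_of_lt_one₀ hγ hγ1] at h1
  refine lt_of_le_of_ne h1 fun he => ?_
  have := (hdist b m hb2 le_rfl hb3 hT he.symm).1
  omega

private theorem eqk_const {k K : Type} [Field k] [CharZero k] [Field K] [CharZero K] [Algebra k K]
    (hk : Algebra.IsAlgebraic ℚ k) {O : ValuationSubring K} (hO : IsPl O) {c : k} (hc : c ≠ 0) :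
    O.valuation (algebraMap k K c) = 1 := by
  have h0 : algebraMap k K c ≠ 0 := (_root_.map_ne_zero _).2 hc
  refine le_antisymm ((O.valuation_le_one_iff _).2 (CSG.const_mem hk hO c)) ?_
  have h1 := (O.valuation_le_one_iff _).2 (CSG.const_mem hk hO c⁻¹)
  rw [map_inv₀, map_inv₀] at h1
  exact (inv_le_one₀ (zero_lt_iff.2 ((O.valuation.ne_zero_iff).2 h0))).1 h1

private theorem eqk_val {k K : Type} [Field k] [CharZero k] [Field K] [CharZero K] [Algebra k K]
    (hk : Algebra.IsAlgebraic ℚ k) {O : ValuationSubring K} (hO : IsPl O) {x : K}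
    (hx : 1 < O.valuation x) {p : k[X]} (hp : p ≠ 0) :
    O.valuation (aeval x p) = O.valuation x ^ p.natDegree := by
  have hx0 : O.valuation x ≠ 0 := (zero_lt_one.trans hx).ne'
  rw [aeval_eq_sum_range, Finset.sum_range_succ]
  have h1 : O.valuation (p.coeff p.natDegree • x ^ p.natDegree) = O.valuation x ^ p.natDegree := by
    rw [Algebra.smul_def, map_mul, map_pow, coeff_natDegree,
      eqk_const hk hO (leadingCoeff_ne_zero.2 hp), one_mul]
  rw [Valuation.map_add_eq_of_lt_right, h1]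
  rw [h1]
  refine O.valuation.map_sum_lt (pow_ne_zero _ hx0) fun i hi => ?_
  rw [Finset.mem_range] at hi
  rw [Algebra.smul_def, map_mul, map_pow]
  refine lt_of_le_of_lt (mul_le_of_le_one_left' ((O.valuation_le_one_iff _).2
    (CSG.const_mem hk hO _))) ?_
  exact pow_lt_pow_right₀ hx hi

open scoped IntermediateField.algebraAdjoinAdjoin

theorem exists_equationK {k K : Type} [Field k] [CharZero k] [Field K] [CharZero K] [Algebra k K]
    (hk : Algebra.IsAlgebraic ℚ k) {x : K} (hx : Transcendental k x) {m : ℕ}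
    (hm : m.Prime) (hK : Module.finrank (IntermediateField.adjoin k {x}) K = m)
    {O : ValuationSubring K} (hO : IsPl O) (hxO : x ∉ O) {t : K}
    (ht : O.valuation (x * t ^ m) = 1) :
    ∃ (w : K) (E : k[X][X]), WtsK m E ∧ ev3 (algebraMap k K) x w E = 0 ∧
      IntermediateField.adjoin k {x, w} = ⊤ := by
  classical
  have := hO.1
  obtain ⟨p, ord, H⟩ := Helper11.exists_ord O
  obtain ⟨γ, hγ⟩ : ∃ γ, γ = O.valuation (p : K) := ⟨_, rfl⟩
  have hγ0 : γ ≠ 0 := by rw [hγ]; exact (O.valuation.ne_zero_iff).2 p.ne_zero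
  have hγ1 : γ < 1 := by rw [hγ]; exact H.lt
  have hγp : 0 < γ := zero_lt_iff.2 hγ0
  have hval : ∀ y : K, y ≠ 0 → ∃ n : ℤ, O.valuation y = γ ^ n := fun y hy =>
    ⟨ord (Units.mk0 y hy), by rw [hγ]; exact H.eq (Units.mk0 y hy)⟩
  have hvx : 1 < O.valuation x := by
    rw [← not_le, O.valuation_le_one_iff]; exact hxO
  have hx0 : x ≠ 0 := by
    rintro rfl
    rw [map_zero] at hvx
    exact not_lt_zero hvx
  have ht0 : t ≠ 0 := by
    rintro rfl
    rw [zero_pow hm.ne_zero, mul_zero, map_zero] at ht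
    exact zero_ne_one ht
  obtain ⟨a, ha⟩ := hval t ht0
  -- `v x = γ ^ (-e)`, `e = m a`
  have hxv : O.valuation x = γ ^ (-((m : ℤ) * a)) := by
    rw [map_mul, map_pow, ha] at ht
    rw [zpow_neg, mul_comm (m : ℤ) a, zpow_mul, zpow_natCast]
    exact eq_inv_of_mul_eq_one_left ht
  have hma : 0 < (m : ℤ) * a := by
    by_contra hcon
    rw [hxv, ← zpow_zero γ, zpow_lt_zpow_iff_right_of_lt_one₀ hγp hγ1] at hvx
    omega
  have ha0 : 0 < a := by
    have hm0 : (0 : ℤ) < m := by exact_mod_cast hm.pos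
    exact pos_of_mul_pos_right hma hm0.le
  -- the fields
  let R := Algebra.adjoin k {x}
  let F := IntermediateField.adjoin k {x}
  have hfin : FiniteDimensional F K := Module.finite_of_finrank_pos (by rw [hK]; exact hm.pos)
  have halgRF : Algebra.IsAlgebraic R F := inferInstance
  have halg : Algebra.IsAlgebraic R K := Algebra.IsAlgebraic.trans R F K
  let ε : k[X] ≃ₐ[k] R := algEquivOfTranscendental k x hx
  have hε : ∀ q : k[X], ((ε q : R) : K) = aeval x q := by
    intro q
    have h1 : ((algEquivOfTranscendental k x hx q : R) : K) =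
        R.val (aeval (⟨x, Algebra.self_mem_adjoin_singleton k x⟩ : R) q) := rfl
    rw [h1, ← aeval_algHom_apply]
    rfl
  have hIC : IsIntegrallyClosed R := IsIntegrallyClosed.of_equiv ε.toRingEquiv
  obtain ⟨y, hy0, hy⟩ := (halg.isAlgebraic (p : K)).exists_integral_multiple
  obtain ⟨q, hq⟩ : ∃ q : k[X], ε q = y := ε.surjective y
  have hq0 : q ≠ 0 := by
    rintro rfl
    exact hy0 (by rw [← hq, map_zero])
  obtain ⟨w, hw⟩ : ∃ w : K, w = aeval x q * p := ⟨_, rfl⟩
  have hwint : IsIntegral R w := by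
    have h1 : y • (p : K) = w := by
      rw [hw, ← hε, hq]
      rfl
    rw [← h1]
    exact hy
  have haev : ∀ {r : k[X]}, r ≠ 0 → O.valuation (aeval x r) = γ ^ (-((m : ℤ) * a) * r.natDegree) := by
    intro r hr
    rw [eqk_val hk hO hvx hr, hxv, zpow_mul, zpow_natCast]
  obtain ⟨N, hN⟩ : ∃ N : ℤ, N = 1 - m * a * q.natDegree := ⟨_, rfl⟩
  have hvw : O.valuation w = γ ^ N := by
    rw [hw, map_mul, haev hq0, ← hγ, ← zpow_add_one₀ hγ0, hN]
    congr 1
    ring
  have hw0 : w ≠ 0 := by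
    intro h0
    rw [h0, map_zero] at hvw
    exact zpow_ne_zero N hγ0 hvw.symm
  have hm1 : ¬ (m : ℤ) ∣ 1 := by
    intro h
    have h2 := Int.natCast_dvd_natCast.1 (by exact_mod_cast h : ((m : ℕ) : ℤ) ∣ ((1 : ℕ) : ℤ))
    exact hm.one_lt.ne' (Nat.dvd_one.1 h2)
  have hwF : w ∉ F := by
    intro hF
    obtain ⟨r, s, hrs⟩ := (IntermediateField.mem_adjoin_simple_iff k w).1 hF
    have hr0 : r ≠ 0 := by
      rintro rfl
      rw [map_zero, zero_div] at hrs
      exact hw0 hrs
    have hs0 : s ≠ 0 := by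
      rintro rfl
      rw [map_zero, div_zero] at hrs
      exact hw0 hrs
    rw [hrs, map_div₀, haev hr0, haev hs0, ← zpow_sub₀ hγ0] at hvw
    have h1 := zpow_right_injective₀ hγp hγ1.ne hvw
    rw [hN] at h1
    refine hm1 ⟨a * q.natDegree - a * r.natDegree + a * s.natDegree, ?_⟩
    linear_combination -h1
  have htop : IntermediateField.adjoin F {w} = ⊤ := by
    have := IntermediateField.isSimpleOrder_of_finrank_prime F K (by rw [hK]; exact hm)
    rcases eq_bot_or_eq_top (IntermediateField.adjoin F {w}) with h | h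
    · exfalso
      have h1 : w ∈ IntermediateField.adjoin F {w} :=
        IntermediateField.mem_adjoin_simple_self F w
      rw [h, IntermediateField.mem_bot] at h1
      obtain ⟨z, hz⟩ := h1
      exact hwF (hz ▸ z.2)
    · exact h
  have hwF' : IsIntegral F w := Algebra.IsIntegral.isIntegral w
  have hdegF : (minpoly F w).natDegree = m := by
    rw [← IntermediateField.adjoin.finrank hwF', htop, IntermediateField.finrank_top', hK]
  have hdegR : (minpoly R w).natDegree = m := by
    rw [← hdegF, minpoly.isIntegrallyClosed_eq_field_fractions' F hwint,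
      (minpoly.monic hwint).natDegree_map]
  let σ : R →+* k[X] := (ε.symm.toRingEquiv : R →+* k[X])
  have hσ : ∀ r : R, aeval x (σ r) = (r : K) := by
    intro r
    rw [← hε]
    exact congrArg Subtype.val (ε.apply_symm_apply r)
  obtain ⟨E, hE⟩ : ∃ E : k[X][X], E = (minpoly R w).map σ := ⟨_, rfl⟩
  have hEm : E.Monic := by rw [hE]; exact (minpoly.monic hwint).map σ
  have hEd : E.natDegree = m := by
    rw [hE, (minpoly.monic hwint).natDegree_map, hdegR]
  have hE0 : ev3 (algebraMap k K) x w E = 0 := by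
    have h1 : (eval₂RingHom (algebraMap k K) x).comp σ = algebraMap R K := by
      ext r
      exact hσ r
    unfold ev3
    rw [coe_eval₂RingHom, hE, eval₂_map, h1]
    exact minpoly.aeval R w
  have hsum : ∑ b ∈ Finset.range (m + 1), aeval x (E.coeff b) * w ^ b = 0 := by
    rw [← hE0]
    unfold ev3
    rw [coe_eval₂RingHom, eval₂_eq_sum_range, hEd]
    rfl
  have hcm : E.coeff m = 1 := by
    rw [← hEd]; exact hEm
  have hnz : ∀ b, aeval x (E.coeff b) * w ^ b ≠ 0 → E.coeff b ≠ 0 := by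
    intro b hb h0
    rw [h0, map_zero, zero_mul] at hb
    exact hb rfl
  have hnz' : ∀ b, E.coeff b ≠ 0 → aeval x (E.coeff b) * w ^ b ≠ 0 := by
    intro b hb h0
    have h1 := haev hb
    rcases mul_eq_zero.1 h0 with h2 | h2
    · rw [h2, map_zero] at h1
      exact zpow_ne_zero _ hγ0 h1.symm
    · exact pow_ne_zero _ hw0 h2
  obtain ⟨hc1, hc2, hc3⟩ := eqk_core O.valuation hγ0 hγ1 (m := m)
    (fun b => aeval x (E.coeff b) * w ^ b)
    (fun b => -((m : ℤ) * a) * (E.coeff b).natDegree + b * N)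
    (by
      intro b hb hT
      rw [map_mul, map_pow, haev (hnz b hT), hvw, zpow_add₀ hγ0, mul_comm (b : ℤ) N, zpow_mul γ N,
        zpow_natCast])
    (hnz' m (by rw [hcm]; exact one_ne_zero)) hsum
    (by
      intro b b' hbb hb' hT hT' hn
      have hdvd : (m : ℤ) ∣ ((b' : ℤ) - b) := by
        rw [hN] at hn
        refine ⟨a * (E.coeff b').natDegree - a * (E.coeff b).natDegree
          + a * q.natDegree * (b' - b), ?_⟩
        linear_combination (-1 : ℤ) * hn
      have h1 := Int.le_of_dvd (by omega) hdvd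
      omega)
  have hm0 : (m : ℤ) ≠ 0 := by exact_mod_cast hm.ne_zero
  have hNd : N = -(a * (E.coeff 0).natDegree) := by
    simp only [hcm, natDegree_one] at hc2
    refine mul_left_cancel₀ hm0 ?_
    push_cast at hc2
    linear_combination -hc2
  refine ⟨w, E, ⟨hEm, hEd, ?_, ?_⟩, hE0, ?_⟩
  · rintro ⟨c, hc⟩
    refine hm1 ⟨a * q.natDegree - a * c, ?_⟩
    rw [hN, hc] at hNd
    push_cast at hNd
    linear_combination hNd
  · intro b hb1 hb2 hb3
    have h1 := hc3 b hb1 hb2 (hnz' b hb3)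
    simp only [hcm, natDegree_one] at h1
    rw [hNd] at h1
    have h2 : a * ((m : ℤ) * (E.coeff b).natDegree + b * (E.coeff 0).natDegree) <
        a * ((m : ℤ) * (E.coeff 0).natDegree) := by
      push_cast at h1
      nlinarith [h1]
    exact_mod_cast lt_of_mul_lt_mul_left h2 ha0.le
  · rw [← IntermediateField.adjoin_simple_adjoin_simple, htop]
    rfl

end Pool.Agent.ETN
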