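import Pool.Agent.ETN.Dgk
import Pool.Agent.ETU.HgC
import Pool.Agent.ETU.Pol

/-!
# The exceptional points, over `k`

`height_finK`: there are finitely many monic irreducible polynomials `P` over `k` of bounded degree at whose roots some
nontrivial product of the `f i ^ a i` is a root of unity (through the minimal polynomials over `ℚ` of the roots of `P`
and `ETU.height_fin`). `exc_finiteK`: finitely many points are bad at two primes.
-/

open scoped BigOperators Polynomial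
open Polynomial

namespace Pool.Agent.ETN

open Pool.Agent.ETU

variable {r : ℕ}

private theorem exk_factors {k : Type} [Field k] {F : k[X]} (hF : F ≠ 0) :
    {P : k[X] | P.Monic ∧ Irreducible P ∧ P ∣ F}.Finite := by
  classical
  refine ((UniqueFactorizationMonoid.normalizedFactors F).toFinset.finite_toSet).subset ?_
  rintro P ⟨h1, h2, h3⟩
  rw [Finset.mem_coe, Multiset.mem_toFinset,
    UniqueFactorizationMonoid.mem_normalizedFactors_iff' hF]
  exact ⟨h2, h1.normalize_eq_self, h3⟩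

private theorem exk_root {k L : Type} [Field k] [NumberField k] [Field L] [Algebra k L]
    [Algebra ℚ L] [IsScalarTower ℚ k L] [FiniteDimensional k L] {f : Fin r → ℤ[X]}
    {a : Fin r → ℤ} {P : k[X]} (hP1 : P.Monic) (hP2 : Irreducible P) (hrel : RelK k f a P)
    {θ : L} (hθ : aeval θ P = 0) :
    P ∣ (minpoly ℚ θ).map (algebraMap ℚ k) ∧ (minpoly ℚ θ).Monic ∧ Irreducible (minpoly ℚ θ) ∧
      (minpoly ℚ θ).natDegree ≤ Module.finrank ℚ k * Module.finrank k L ∧
      Rel f a (minpoly ℚ θ) := by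
  have : FiniteDimensional ℚ L := FiniteDimensional.trans ℚ k L
  have hint : IsIntegral ℚ θ := Algebra.IsIntegral.isIntegral θ
  refine ⟨?_, minpoly.monic hint, minpoly.irreducible hint, ?_, ?_⟩
  · have hP : P = minpoly k θ := minpoly.eq_of_irreducible_of_monic hP2 hθ hP1
    rw [hP]
    refine minpoly.dvd k θ ?_
    rw [aeval_map_algebraMap]
    exact minpoly.aeval ℚ θ
  · rw [Module.finrank_mul_finrank]
    exact minpoly.natDegree_le θ
  · obtain ⟨n, hn, Q, hQ⟩ := hrel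
    refine ⟨n, hn, minpoly.dvd ℚ θ ?_⟩
    have h1 : aeval θ (((Ap f a) ^ n - (Ap f (-a)) ^ n).map (Int.castRingHom k)) = 0 := by
      rw [hQ, map_mul, hθ, zero_mul]
    rw [← algebraMap_int_eq, aeval_map_algebraMap] at h1 ⊢
    exact h1

theorem height_finK {k : Type} [Field k] [NumberField k] {f : Fin r → ℤ[X]}
    (hmon : ∀ i, (f i).Monic) (hpos : ∀ i, 0 < (f i).natDegree)
    (hc : ∀ i j, i ≠ j → IsCoprime ((f i).map (Int.castRingHom ℚ)) ((f j).map (Int.castRingHom ℚ)))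
    (B : ℕ) :
    {P : k[X] | P.Monic ∧ Irreducible P ∧ P.natDegree ≤ B ∧
      ∃ a : Fin r → ℤ, a ≠ 0 ∧ RelK k f a P}.Finite := by
  have hfin := height_fin hmon hpos hc (Module.finrank ℚ k * B)
  refine (hfin.biUnion (t := fun p => {P : k[X] | P.Monic ∧ Irreducible P ∧
    P ∣ p.map (algebraMap ℚ k)}) ?_).subset ?_
  · rintro p ⟨h1, -⟩
    exact exk_factors (h1.map (algebraMap ℚ k)).ne_zero
  · rintro P ⟨hP1, hP2, hP3, a, ha, hrel⟩
    have : Fact (Irreducible P) := ⟨hP2⟩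
    have : FiniteDimensional k (AdjoinRoot P) :=
      (AdjoinRoot.powerBasis hP2.ne_zero).finite
    obtain ⟨h1, h2, h3, h4, h5⟩ := exk_root (L := AdjoinRoot P) hP1 hP2 hrel
      (θ := AdjoinRoot.root P) (by rw [AdjoinRoot.aeval_eq, AdjoinRoot.mk_self])
    have h6 : Module.finrank k (AdjoinRoot P) = P.natDegree := by
      rw [(AdjoinRoot.powerBasis hP2.ne_zero).finrank, AdjoinRoot.powerBasis_dim]
    rw [h6] at h4
    exact Set.mem_biUnion ⟨h2, h3, h4.trans (Nat.mul_le_mul_left _ hP3), a, ha, h5⟩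
      ⟨hP1, hP2, h1⟩

theorem exc_finiteK {p₁ p₂ : ℕ} [Fact p₁.Prime] [Fact p₂.Prime] (h12 : p₁ ≠ p₂) {k : Type}
    [Field k] [NumberField k] (τ₁ : k →+* PadicAlgCl p₁) (τ₂ : k →+* PadicAlgCl p₂)
    {f : Fin r → ℤ[X]} (hf₁ : Fam p₁ f) (hf₂ : Fam p₂ f) :
    {P : k[X] | P.Monic ∧ Irreducible P ∧ ∃ a : Fin r → ℤ, Prim a ∧ RelK k f a P ∧
      (∀ α : PadicAlgCl p₁, P.eval₂ τ₁ α = 0 → ¬ Good f a α) ∧
      (∀ α : PadicAlgCl p₂, P.eval₂ τ₂ α = 0 → ¬ Good f a α)}.Finite := by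
  obtain ⟨B, hB⟩ := deg_boundK h12 τ₁ τ₂ hf₁ hf₂
  refine (height_finK hf₁.mon hf₁.pos (fun i j h => fam_coprime (Fact.out) hf₁ h) B).subset ?_
  rintro P ⟨h1, h2, a, ha, hrel, h3, h4⟩
  refine ⟨h1, h2, hB a ha P h1 h2 hrel h3 h4, a, ?_, hrel⟩
  rintro rfl
  obtain ⟨i, hi⟩ := ha 2 Nat.prime_two
  exact hi (dvd_zero _)

end Pool.Agent.ETN
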