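import Pool.Agent.CSG.Spe

/-!
# Specialisation at infinity of symbols over `k(X)`

The leading coefficient `lc (p/q) = lc p / lc q` is a homomorphism from the units of `k(X)` to `kˣ`, and induces a map of `K₂`.
-/

open scoped BigOperators Polynomial
open Polynomial

namespace Pool.Agent.ETN

open Pool.Agent.Helper11

private lemma h8spi_neg {k : Type} [Field k] {c c' : kˣ} (h : (c : k) + c' = 0) :
    sy c c' = 0 := by
  have h1 : c' = (-1 : kˣ) * c := by
    ext
    rw [Units.val_mul, Units.val_neg, Units.val_one]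
    linear_combination h
  have h2 : (2 : ℚ) • sy c (-1) = 0 := by
    have h3 := sy_zpow_right c (-1) 2
    have h4 : ((-1 : kˣ) ^ (2 : ℤ)) = 1 := by
      rw [zpow_ofNat]
      exact neg_one_sq
    rw [h4, sy_one_right] at h3
    exact_mod_cast h3.symm
  have h5 : sy c (-1) = 0 := (smul_eq_zero.1 h2).resolve_left two_ne_zero
  rw [h1, sy_mul_right, h5, sy_self, add_zero]

private lemma h8spi_one_left {k : Type} [Field k] (c : kˣ) : sy 1 c = 0 := by
  rw [sy_anti, sy_one_right, neg_zero]

private lemma h8spi_dlc {k : Type} [Field k] (f : RatFunc k) : f.denom.leadingCoeff = 1 :=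
  RatFunc.monic_denom f

/-- the leading coefficient at infinity -/
private noncomputable def h8spi_lc (k : Type) [Field k] : (RatFunc k)ˣ →* kˣ where
  toFun f := Units.mk0 (RatFunc.num (f : RatFunc k)).leadingCoeff (by
    rw [Ne, leadingCoeff_eq_zero, RatFunc.num_eq_zero_iff]
    exact f.ne_zero)
  map_one' := by
    ext
    rw [Units.val_mk0, Units.val_one, RatFunc.num_one, leadingCoeff_one, Units.val_one]
  map_mul' f g := by
    ext
    have h := congrArg leadingCoeff (RatFunc.num_denom_mul (f : RatFunc k) (g : RatFunc k))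
    rw [leadingCoeff_mul, leadingCoeff_mul, leadingCoeff_mul, leadingCoeff_mul, h8spi_dlc,
      h8spi_dlc, h8spi_dlc, mul_one, mul_one, mul_one] at h
    rw [Units.val_mk0, Units.val_mul, h, Units.val_mul, Units.val_mk0, Units.val_mk0]

private lemma h8spi_val {k : Type} [Field k] (f : (RatFunc k)ˣ) : (h8spi_lc k f : k) =
    (RatFunc.num (f : RatFunc k)).leadingCoeff := rfl

private lemma h8spi_steinberg {k : Type} [Field k] {f g : (RatFunc k)ˣ}
    (h : (f : RatFunc k) + g = 1) : sy (h8spi_lc k f) (h8spi_lc k g) = 0 := by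
  have h1 := RatFunc.num_denom_add (f : RatFunc k) (g : RatFunc k)
  rw [h, RatFunc.num_one, RatFunc.denom_one, one_mul, mul_one] at h1
  have ha : (RatFunc.num (f : RatFunc k) * RatFunc.denom (g : RatFunc k)).leadingCoeff =
      (h8spi_lc k f : k) := by
    rw [leadingCoeff_mul, h8spi_dlc, mul_one, h8spi_val]
  have hb : (RatFunc.denom (f : RatFunc k) * RatFunc.num (g : RatFunc k)).leadingCoeff =
      (h8spi_lc k g : k) := by
    rw [leadingCoeff_mul, h8spi_dlc, one_mul, h8spi_val]
  have hc : (RatFunc.denom (f : RatFunc k) * RatFunc.denom (g : RatFunc k)).leadingCoeff =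
      (1 : k) := by
    rw [leadingCoeff_mul, h8spi_dlc, h8spi_dlc, mul_one]
  rw [h1] at hc
  rcases lt_trichotomy (RatFunc.num (f : RatFunc k) * RatFunc.denom (g : RatFunc k)).degree
    (RatFunc.denom (f : RatFunc k) * RatFunc.num (g : RatFunc k)).degree with h2 | h2 | h2
  · rw [leadingCoeff_add_of_degree_lt h2, hb] at hc
    have h3 : h8spi_lc k g = 1 := by
      ext
      rw [hc, Units.val_one]
    rw [h3, sy_one_right]
  · by_cases h3 : (h8spi_lc k f : k) + h8spi_lc k g = 0
    · exact h8spi_neg h3
    · rw [leadingCoeff_add_of_degree_eq h2 (by rw [ha, hb]; exact h3), ha, hb] at hc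
      exact sy_steinberg hc
  · rw [leadingCoeff_add_of_degree_lt' h2, ha] at hc
    have h3 : h8spi_lc k f = 1 := by
      ext
      rw [hc, Units.val_one]
    rw [h3, h8spi_one_left]

theorem exists_spi (k : Type) [Field k] : ∃ s : KMQ (RatFunc k) 2 →ₗ[ℚ] KMQ k 2,
    ∀ (f g : (RatFunc k)ˣ) (p q : k[X]) (hp : p ≠ 0) (hq : q ≠ 0),
      (f : RatFunc k) = algebraMap k[X] (RatFunc k) p →
      (g : RatFunc k) = algebraMap k[X] (RatFunc k) q →
      s (sy f g) = sy (Units.mk0 p.leadingCoeff (leadingCoeff_ne_zero.2 hp))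
        (Units.mk0 q.leadingCoeff (leadingCoeff_ne_zero.2 hq)) := by
  obtain ⟨s, hs⟩ := KMQ.exists_lift (R := RatFunc k) (d := 2) (V := KMQ k 2)
    (fun f => sy (h8spi_lc k (f 0)) (h8spi_lc k (f 1))) (by
      intro f i u v
      fin_cases i
      · simp only [Fin.zero_eta, Fin.isValue, Function.update_self, ne_eq, one_ne_zero,
          not_false_eq_true, Function.update_of_ne, map_mul]
        exact sy_mul_left _ _ _
      · simp only [Fin.mk_one, Fin.isValue, Function.update_self, ne_eq, zero_ne_one,
          not_false_eq_true, Function.update_of_ne, map_mul]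
        exact sy_mul_right _ _ _) (by
      intro f i j hij h
      fin_cases i <;> fin_cases j
      · exact absurd rfl hij
      · exact h8spi_steinberg h
      · have := h8spi_steinberg (f := f 0) (g := f 1) (by rw [add_comm]; exact h)
        exact this
      · exact absurd rfl hij)
  have hs' : ∀ f g : (RatFunc k)ˣ, s (sy f g) = sy (h8spi_lc k f) (h8spi_lc k g) := fun f g => by
    rw [sy, hs]
    rfl
  have h0 : ∀ (v : (RatFunc k)ˣ) (p : k[X]) (hp : p ≠ 0),
      (v : RatFunc k) = algebraMap k[X] (RatFunc k) p →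
      h8spi_lc k v = Units.mk0 p.leadingCoeff (leadingCoeff_ne_zero.2 hp) := by
    intro v p hp hv
    ext
    rw [h8spi_val, hv, RatFunc.num_algebraMap, Units.val_mk0]
  refine ⟨s, fun f g p q hp hq hf hg => ?_⟩
  rw [hs', h0 f p hp hf, h0 g q hq hg]

end Pool.Agent.ETN
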