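import Pool.Agent.CS2.RatB
import Pool.Agent.CSG.Cyk
import Pool.Agent.CSG.Tak

/-!
# MODULE ETN-Two : unramified elements of `K₂(k(X))` at two places over the same point

As `ETU.unr_transfer` (Pool/Agent/ETU/Trn.lean; header there), with `ℚ` replaced by `k`, the element `z` in `KMQ (RatFunc k) 2` and two
different fields `K`, `K'` containing `k(X)`. Every unit of `RatFunc k` is `P ^ j * a / b`, `a, b ∈ k[X]` prime to `P`; `{P, P} = 0`, so
`N z = {P, g₁/g₂} + (symbols {a, b}, a, b prime to P)` in `KMQ (RatFunc k) 2`. Polynomials prime to `P` are units at `O` and `O'`. Tame symbol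
at `O` (`exists_tameT`): `(φ (g₁/g₂))^M - 1` is in the maximal ideal of `O`, `M ≥ 1`, so `P ∣ g₁^M - g₂^M` (a polynomial prime to `P` would be a unit at
`O`). If `g₁^M = g₂^M` then `M {P, g₁/g₂} = 0`. Otherwise `g₁^M = g₂^M + P^j s`, `j ≥ 1`, `P ∤ s`; Steinberg
`{-P^j s/g₂^M, g₁^M/g₂^M} = 0`, so `j {P, g₁^M/g₂^M} = -{-s/g₂^M, g₁^M/g₂^M}`, a combination of symbols of polynomials prime to `P`; its image
under `φ'` is a combination of symbols of units at `O'`.
The places contain `k`: hypotheses `hk`, `hk'`; `x = φ X ∈ O` and `φ' X ∈ O'`.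
-/

open scoped BigOperators Polynomial
open Polynomial

namespace Pool.Agent.ETN

open Pool.Agent.Helper11 Pool.Agent.ISI

theorem unr_two {k K K' : Type} [Field k] [CharZero k] [Field K] [CharZero K] [Field K']
    [CharZero K'] (φ : RatFunc k →+* K) (φ' : RatFunc k →+* K') {P : k[X]} (hP : P.Monic)
    (hP' : Irreducible P) {O : ValuationSubring K} [IsDiscreteValuationRing O]
    {O' : ValuationSubring K'} [IsDiscreteValuationRing O']
    (hk : ∀ p : k[X], φ (algebraMap k[X] (RatFunc k) p) ∈ O)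
    (hk' : ∀ p : k[X], φ' (algebraMap k[X] (RatFunc k) p) ∈ O')
    (hv : O.valuation (φ (algebraMap k[X] (RatFunc k) P)) < 1)
    (hv' : O'.valuation (φ' (algebraMap k[X] (RatFunc k) P)) < 1) {z : KMQ (RatFunc k) 2}
    (h : KMQ.map φ 2 z ∈ unrM O 2) : KMQ.map φ' 2 z ∈ unrM O' 2 := by
  sorry

/-- the same for combinations of symbols of polynomials in `x` and two places of the same field -/
theorem unr_transferK {k K : Type} [Field k] [CharZero k] [Field K] [CharZero K] [Algebra k K]
    (hk : Algebra.IsAlgebraic ℚ k) {x : K} (hx : Transcendental k x) {P : k[X]}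
    (hP : P.Monic) (hP' : Irreducible P) {O O' : ValuationSubring K}
    (hO : Pool.Agent.CST.IsPl O) (hO' : Pool.Agent.CST.IsPl O')
    (hxO : x ∈ O) (hxO' : x ∈ O') (hv : O.valuation (aeval x P) < 1)
    (hv' : O'.valuation (aeval x P) < 1) {β : KMQ K 2} (hβ : β ∈ Pool.Agent.CSG.LPk k x)
    (h : β ∈ unrM O 2) : β ∈ unrM O' 2 := by
  sorry

end Pool.Agent.ETN
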