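import Pool.Agent.ETN.Defs
import Pool.Agent.ETN.Two
import Pool.Agent.ETN.Spi
import Pool.Agent.CSG.MiC
import Pool.Agent.Helper11.K2Const

/-!
# MODULE ETN-Spc : the correction terms have no unramified part

`φ : RatFunc k →+* K`, `X ↦ x` (as in CSG.Cyk, `sy_cyk`). Every `z ∈ CCk k x f` is `KMQ.map φ 2 z'`, `z'` in the span of the `{f i, q}` (`q` over `k`)
and of the `{p, q}` (`p, q` over `ℚ`) in `KMQ (RatFunc k) 2`. For a monic irreducible `P` choose a place `O` of `K` over `P` (`exists_zero`; it contains `k`,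
`CSG.const_mem`, and `x`); `z` is unramified at `O`, so by `unr_two` (with `K' = RatFunc k`, `φ' = id`) `z'` is unramified at the `P`-adic place of
`RatFunc k` (the place `O` in CSG.Cyk: see how `milnorK` is applied there, CSG.PlR). `CSG.milnorK`: `z' ∈ LPdk k X 0`. Let `s` be as in `exists_spi`: `s z' = 0`,
as `f i` is monic (`sy 1 _ = 0`) and the symbols of two rational numbers vanish (`sy_isC`, `isC_cst`). For `w ∈ LPdk k X 0` the image of `s w` is `w` (`hmap` in
`sy_ratFunc`, CSG.Cyk). So `z' = 0`.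
-/

open scoped BigOperators Polynomial
open Polynomial

namespace Pool.Agent.ETN

open Pool.Agent.CST Pool.Agent.CSG Pool.Agent.Helper11 Pool.Agent.ISI

theorem cck_unr {k K : Type} [Field k] [CharZero k] [Field K] [CharZero K] [Algebra k K]
    (hk : Algebra.IsAlgebraic ℚ k) {x : K} (hx : Transcendental k x)
    (hK : FiniteDimensional (IntermediateField.adjoin ℚ {x}) K) {r : ℕ} {f : Fin r → ℤ[X]}
    (hf : ∀ i, (f i).Monic) : CCk k x f ⊓ geomM K = ⊥ := by
  sorry

end Pool.Agent.ETN
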