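import Pool.Agent.ETU.Fin
import Pool.Agent.ETN.Cok
import Pool.Agent.ETN.Suk
import Pool.Agent.ETN.Spc

/-!
# S-units and finite-dimensionality, over `k`

As `ETU.sunits`, `ETU.fin_tuple` (Pool/Agent/ETU/Fin.lean): the correction terms are in `CCk k x f` (it contains the
`{u i, q(x)}`, `q` over `k`, and `LP x ≤ CCk k x f ≤ LPk k x`), which has no unramified part (`cck_unr`). A constant
`c ∈ k` gives `{u i, c} ∈ CCk k x f`.
-/

open scoped BigOperators Polynomial
open Polynomial

namespace Pool.Agent.ETN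

open Pool.Agent.ETU Pool.Agent.CST Pool.Agent.CSG Pool.Agent.Helper11 Pool.Agent.ISI

private theorem Fik_one {K : Type} [Field K] [CharZero K] (O : ValuationSubring K) :
    vo O (1 : Kˣ) = 0 := by
  have h := vo_mul O 1 1
  rw [mul_one] at h
  omega

theorem sunitsK {k K : Type} [Field k] [CharZero k] [Field K] [CharZero K] [Algebra k K]
    (hk : Algebra.IsAlgebraic ℚ k) {x : K} (hx : Transcendental k x) (hc : CstK k K)
    (hK : FiniteDimensional (IntermediateField.adjoin ℚ {x}) K)
    {S : Set (ValuationSubring K)} (hS : S.Finite) :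
    ∃ (t : ℕ) (s : Fin t → Kˣ), ∀ h : Kˣ, (∀ O, IsPl O → O ∉ S → vo O h = 0) →
      ∃ (e : Fin t → ℤ) (c : k) (q : Kˣ), (q : K) = algebraMap k K c ∧
        h = q * ∏ j, s j ^ e j := by
  classical
  have _ := hx
  have _ := hk
  have : Fintype S := hS.fintype
  let G : Set Kˣ := {h | ∀ O, IsPl O → O ∉ S → vo O h = 0}
  let φ : Kˣ → (S → ℤ) := fun h O => vo (O : ValuationSubring K) h
  have hφ : (Submodule.span ℤ (φ '' G)).FG := IsNoetherian.noetherian _
  obtain ⟨F, hF, hF'⟩ := Submodule.fg_span_iff_fg_span_finset_subset (φ '' G) |>.1 hφ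
  have hpre : ∀ v : F, ∃ h : Kˣ, h ∈ G ∧ φ h = v := fun v => hF v.2
  choose g hgG hg using hpre
  refine ⟨F.card, fun j => g (F.equivFin.symm j), ?_⟩
  intro h hh
  have h1 : φ h ∈ Submodule.span ℤ (φ '' G) := Submodule.subset_span ⟨h, hh, rfl⟩
  rw [hF', Submodule.mem_span_finset] at h1
  obtain ⟨f, -, hf⟩ := h1
  let e : Fin F.card → ℤ := fun j => f (F.equivFin.symm j)
  have hsum : ∀ O : S, ∑ j, e j * vo (O : ValuationSubring K) (g (F.equivFin.symm j)) =
      vo (O : ValuationSubring K) h := by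
    intro O
    have h2 : ∑ j, e j * vo (O : ValuationSubring K) (g (F.equivFin.symm j)) =
        ∑ v : F, f v * vo (O : ValuationSubring K) (g v) :=
      Equiv.sum_comp F.equivFin.symm (fun v : F => f v * vo (O : ValuationSubring K) (g v))
    have h3 : ∑ v : F, f v * vo (O : ValuationSubring K) (g v) =
        ∑ v : F, (fun w : S → ℤ => f w * w O) v := by
      refine Finset.sum_congr rfl fun v _ => ?_
      have h4 := congrFun (hg v) O
      change vo (O : ValuationSubring K) (g v) = (v : S → ℤ) O at h4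
      rw [h4]
    rw [h2, h3, Finset.sum_coe_sort F (fun w : S → ℤ => f w * w O)]
    have h5 := congrFun hf O
    rw [Finset.sum_apply] at h5
    change _ = vo (O : ValuationSubring K) h at h5
    rw [← h5]
    rfl
  let P : Kˣ := ∏ j, g (F.equivFin.symm j) ^ e j
  have hP : ∀ O : ValuationSubring K, vo O P = ∑ j, e j * vo O (g (F.equivFin.symm j)) := by
    intro O
    change vo O (∏ j, g (F.equivFin.symm j) ^ e j) = _
    rw [vo_prod]
    exact Finset.sum_congr rfl fun j _ => vo_zpow _ _ _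
  let w : Kˣ := h * P⁻¹
  have hw : ∀ O, IsPl O → vo O w = 0 := by
    intro O hO
    have h2 : vo O w + vo O P = vo O h := by
      rw [← vo_mul]
      congr 1
      change h * P⁻¹ * P = h
      rw [inv_mul_cancel_right]
    by_cases hOS : O ∈ S
    · have h3 := hsum ⟨O, hOS⟩
      have h4 := hP O
      change ∑ j, e j * vo O (g (F.equivFin.symm j)) = vo O h at h3
      rw [h3] at h4
      omega
    · have h3 : vo O P = 0 := by
        rw [hP O]
        refine Finset.sum_eq_zero fun j _ => ?_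
        rw [hgG (F.equivFin.symm j) O hO hOS, mul_zero]
      have h4 := hh O hO hOS
      omega
  obtain ⟨c, hc'⟩ := const_of_mem hc hK (h := (w : K)) fun O hO =>
    (vo_nonneg_iff hO w).1 (hw O hO).ge
  refine ⟨e, c, w, hc'.symm, ?_⟩
  change h = h * P⁻¹ * P
  rw [inv_mul_cancel_right]

private theorem Fik_c {k K : Type} [Field k] [CharZero k] [Field K] [CharZero K] [Algebra k K]
    (hk : Algebra.IsAlgebraic ℚ k) {O : ValuationSubring K} (hO : IsPl O) {c : k} (hc0 : c ≠ 0) :
    O.valuation (algebraMap k K c) = 1 := by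
  have h4 := (O.valuation_le_one_iff _).2 (const_mem hk hO c)
  have h5 := (O.valuation_le_one_iff _).2 (const_mem hk hO c⁻¹)
  refine le_antisymm h4 ?_
  by_contra h6
  push Not at h6
  have h7 : O.valuation (algebraMap k K c * algebraMap k K c⁻¹) = 1 := by
    rw [← map_mul, mul_inv_cancel₀ hc0, map_one, map_one]
  rw [map_mul] at h7
  have h8 : O.valuation (algebraMap k K c) * O.valuation (algebraMap k K c⁻¹) < 1 :=
    (mul_le_of_le_one_right' h5).trans_lt h6
  exact absurd h7 h8.ne

private theorem Fik_pol {k K : Type} [Field k] [CharZero k] [Field K] [CharZero K] [Algebra k K]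
    (hk : Algebra.IsAlgebraic ℚ k) {O : ValuationSubring K} (hO : IsPl O)
    {x : K} (hx : x ∈ O) (P : k[X]) : aeval x P ∈ O := by
  rw [aeval_eq_sum_range]
  refine sum_mem fun i _ => ?_
  rw [Algebra.smul_def]
  exact mul_mem (const_mem hk hO _) (pow_mem hx _)

private theorem Fik_factor {k K : Type} [Field k] [CharZero k] [Field K] [CharZero K]
    [Algebra k K] (hk : Algebra.IsAlgebraic ℚ k) {O : ValuationSubring K}
    (hO : IsPl O) {h : K} (hh : h ∈ O) (P : k[X]) : P ≠ 0 → O.valuation (aeval h P) < 1 →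
      ∃ π : k[X], π.Monic ∧ Irreducible π ∧ O.valuation (aeval h π) < 1 := by
  induction P using WfDvdMonoid.induction_on_irreducible with
  | zero => exact fun h0 => absurd rfl h0
  | unit u hu =>
    intro _ hv
    obtain ⟨c, hc, rfl⟩ := Polynomial.isUnit_iff.1 hu
    rw [aeval_C, Fik_c hk hO hc.ne_zero] at hv
    exact absurd hv (lt_irrefl _)
  | mul a i ha hi ih =>
    intro _ hv
    rw [map_mul, map_mul] at hv
    have h1 : O.valuation (aeval h i) ≤ 1 := (O.valuation_le_one_iff _).2 (Fik_pol hk hO hh i)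
    rcases h1.lt_or_eq with h3 | h3
    · have hlc : i.leadingCoeff ≠ 0 := leadingCoeff_ne_zero.2 hi.ne_zero
      refine ⟨C i.leadingCoeff⁻¹ * i, ?_, ?_, ?_⟩
      · rw [Monic, leadingCoeff_mul, leadingCoeff_C, inv_mul_cancel₀ hlc]
      · have hu : IsUnit (C i.leadingCoeff⁻¹) :=
          Polynomial.isUnit_C.2 (isUnit_iff_ne_zero.2 (inv_ne_zero hlc))
        exact (irreducible_isUnit_mul hu).2 hi
      · rw [map_mul, map_mul, aeval_C, Fik_c hk hO (inv_ne_zero hlc), one_mul]
        exact h3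
    · rw [h3, one_mul] at hv
      exact ih ha hv

/-- a place over the affine line lies over a monic irreducible polynomial -/
private theorem Fik_center {k K : Type} [Field k] [CharZero k] [Field K] [CharZero K]
    [Algebra k K] (hk : Algebra.IsAlgebraic ℚ k) {x : K}
    (hK : FiniteDimensional (IntermediateField.adjoin ℚ {x}) K) {O : ValuationSubring K}
    (hO : IsPl O) (hxO : x ∈ O) :
    ∃ π : k[X], π.Monic ∧ Irreducible π ∧ O.valuation (aeval x π) < 1 := by
  have h1 : Algebra.IsAlgebraic (Algebra.adjoin ℚ {x}) K := by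
    have h2 : Algebra.IsAlgebraic (IntermediateField.adjoin ℚ {x}) K := inferInstance
    open scoped IntermediateField.algebraAdjoinAdjoin in
    exact (IsFractionRing.comap_isAlgebraic_iff (A := Algebra.adjoin ℚ {x})
      (K := IntermediateField.adjoin ℚ {x}) (C := K)).2 h2
  -- a non unit
  obtain ⟨y, hy0, hy⟩ : ∃ y : K, y ≠ 0 ∧ O.valuation y < 1 := by
    have := hO.1
    obtain ⟨p, hp⟩ := IsDiscreteValuationRing.exists_irreducible O
    refine ⟨(p : K), fun h => hp.ne_zero (Subtype.ext h), ?_⟩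
    exact (O.valuation_lt_one_iff p).1 ((IsLocalRing.mem_maximalIdeal _).2 hp.not_isUnit)
  obtain ⟨q, hq0, hq⟩ := (h1.isAlgebraic y).exists_nonzero_coeff_and_aeval_eq_zero
    (mem_nonZeroDivisors_of_ne_zero hy0)
  have hpol : ∀ a : Algebra.adjoin ℚ {x}, ∃ p : ℚ[X], aeval x p = (a : K) := by
    intro a
    have h2 : (a : K) ∈ (aeval x : ℚ[X] →ₐ[ℚ] K).range := by
      rw [← Algebra.adjoin_singleton_eq_range_aeval]
      exact a.2
    exact h2
  obtain ⟨p, hp⟩ := hpol (q.coeff 0)
  have hp0 : p ≠ 0 := by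
    rintro rfl
    rw [map_zero] at hp
    exact hq0 (Subtype.ext hp.symm)
  refine Fik_factor hk hO hxO (p.map (algebraMap ℚ k))
    ((Polynomial.map_ne_zero_iff (algebraMap ℚ k).injective).2 hp0) ?_
  rw [aeval_map_algebraMap]
  have h3 : aeval y q = aeval y q.divX * y + (q.coeff 0 : K) := by
    conv_lhs => rw [← divX_mul_X_add q]
    rw [map_add, map_mul, aeval_X, aeval_C]
    rfl
  rw [hq] at h3
  have h4 : aeval x p = -(aeval y q.divX * y) := by
    rw [hp]
    linear_combination -h3
  rw [h4, Valuation.map_neg, map_mul]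
  have h5 : aeval y q.divX ∈ O := by
    rw [aeval_eq_sum_range]
    refine sum_mem fun i _ => ?_
    rw [Algebra.smul_def]
    refine mul_mem ?_ (pow_mem ((O.valuation_le_one_iff _).1 hy.le) _)
    obtain ⟨r, hr⟩ := hpol (q.divX.coeff i)
    have h6 : algebraMap (Algebra.adjoin ℚ {x}) K (q.divX.coeff i) = aeval x r := by
      rw [hr]
      rfl
    rw [h6]
    exact Fik_pol (k := ℚ) inferInstance hO hxO r
  exact (mul_le_of_le_one_left' ((O.valuation_le_one_iff _).2 h5)).trans_lt hy

private theorem Fik_lp {k K : Type} [Field k] [CharZero k] [Field K] [CharZero K]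
    [Algebra k K] {x : K} (hx : Transcendental k x) : LP x ≤ LPk k x := by
  have hxQ : Transcendental ℚ x := fun h => hx (h.tower_top k)
  have h1 : ∀ p : ℚ[X], p ≠ 0 → p.map (algebraMap ℚ k) ≠ 0 ∧
      pq x p = pqk x (p.map (algebraMap ℚ k)) := by
    intro p hp
    have h2 := (Polynomial.map_ne_zero_iff (algebraMap ℚ k).injective).2 hp
    refine ⟨h2, pqk_congr hx h2 ?_⟩
    rw [pq_val hxQ hp, aeval_map_algebraMap]
  refine Submodule.span_le.2 ?_
  rintro _ ⟨p, q, hp, hq, rfl⟩
  refine Submodule.subset_span ⟨_, _, (h1 p hp).1, (h1 q hq).1, ?_⟩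
  rw [(h1 p hp).2, (h1 q hq).2]

theorem fin_tupleK {k K : Type} [Field k] [CharZero k] [Field K] [CharZero K] [Algebra k K]
    (hk : Algebra.IsAlgebraic ℚ k) {x : K} (hx : Transcendental k x) (hc : CstK k K)
    (hK : FiniteDimensional (IntermediateField.adjoin ℚ {x}) K) {r : ℕ} {f : Fin r → ℤ[X]}
    (hf : ∀ i, (f i).Monic) {u : Fin r → Kˣ} (hu : ∀ i, (u i : K) = aeval x (f i))
    {T : Set k[X]} (hT : T.Finite)
    (H : ∀ P : k[X], P.Monic → Irreducible P → P ∉ T → (∃ a : Fin r → ℤ, Prim a ∧ RelK k f a P) →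
      ∀ O O' : ValuationSubring K, IsPl O → IsPl O' → O.valuation (aeval x P) < 1 →
        O'.valuation (aeval x P) < 1 → O = O') :
    Module.Finite ℚ ↥(((⨆ i, slM (u i)) ⊔ LP x) ⊓ geomM K) := by
  classical
  have hf0 : ∀ i, f i ≠ 0 := fun i => (hf i).ne_zero
  have hg0 : ∀ i, (f i).map (Int.castRingHom k) ≠ 0 := fun i => ((hf i).map _).ne_zero
  have hgu : ∀ i, (u i : K) = aeval x ((f i).map (Int.castRingHom k)) := fun i => by
    rw [hu i]
    exact (aeval_map_algebraMap (A := k) x (f i)).symm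
  have hup : ∀ i, u i = pqk x ((f i).map (Int.castRingHom k)) := fun i =>
    pqk_congr hx (hg0 i) (hgu i)
  have hxQ : Transcendental ℚ x := fun h => hx (h.tower_top k)
  have hLP : LP x ≤ LPk k x := Fik_lp hx
  have hCC : CCk k x f ≤ LPk k x := by
    refine sup_le (Submodule.span_le.2 ?_) hLP
    rintro _ ⟨i, q, hq, rfl⟩
    exact Submodule.subset_span ⟨_, _, hg0 i, hq, rfl⟩
  have hCu : ∀ i, ∀ q : k[X], q ≠ 0 → sy (u i) (pqk x q) ∈ CCk k x f := by
    intro i q hq
    refine Submodule.mem_sup_left (Submodule.subset_span ⟨i, q, hq, ?_⟩)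
    rw [← hup]
  have hx0 : x ≠ 0 := by
    rintro rfl
    exact hx isAlgebraic_zero
  -- the special places
  let S : Set (ValuationSubring K) := {O | IsPl O ∧ O.valuation x ≠ 1 ∧ x ∉ O} ∪
    ((⋃ i : Fin r, {O | IsPl O ∧ O.valuation (u i : K) ≠ 1}) ∪
      ⋃ P ∈ T, {O | IsPl O ∧ P ≠ 0 ∧ O.valuation (aeval x P) ≠ 1})
  have hS : S.Finite := by
    refine Set.Finite.union ?_ (Set.Finite.union ?_ ?_)
    · exact (Pool.Agent.CSG.finite_suppK hK hx0).subset fun O h => ⟨h.1, h.2.1⟩
    · exact Set.finite_iUnion fun i => Pool.Agent.CSG.finite_suppK hK (u i).ne_zero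
    · refine hT.biUnion fun P _ => ?_
      by_cases hP : P = 0
      · refine Set.finite_empty.subset ?_
        rintro O ⟨-, h, -⟩
        exact absurd hP h
      · exact (Pool.Agent.CSG.finite_suppK hK (aeval_nek hx hP)).subset fun O h => ⟨h.1, h.2.2⟩
  obtain ⟨t, s, hs⟩ := sunitsK hk hx hc hK hS
  let V : Submodule ℚ (KMQ K 2) :=
    Submodule.span ℚ (Set.range fun p : Fin r × Fin t => sy (u p.1) (s p.2))
  have hV : Module.Finite ℚ V := Module.Finite.span_of_finite ℚ (Set.finite_range _)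
  have hfin := finite_sup_inf hV (cck_unr hk hx hK hf)
  have hle : ((⨆ i, slM (u i)) ⊔ LP x) ⊓ geomM K ≤ (V ⊔ CCk k x f) ⊓ geomM K := by
    rintro z ⟨hz, hzg⟩
    refine ⟨?_, hzg⟩
    obtain ⟨N, h, β, Q, hN, hβ, hNz, hQ⟩ := correctK hk hx hK hCu
      (sup_le_sup le_rfl (le_sup_right : LP x ≤ CCk k x f) hz)
    have hunit : ∀ i, ∀ O, IsPl O → O ∉ S → vo O (h i) = 0 := by
      intro i O hO hOS
      by_contra hne
      have hxO : x ∈ O := by
        by_contra hxO
        apply hOS
        refine Or.inl ⟨hO, ?_, hxO⟩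
        intro h1
        exact hxO ((O.valuation_le_one_iff _).1 h1.le)
      have huO : ∀ j, O.valuation (u j : K) = 1 := by
        intro j
        by_contra h1
        exact hOS (Or.inr (Or.inl (Set.mem_iUnion.2 ⟨j, hO, h1⟩)))
      obtain ⟨P, hP, hP', hv⟩ := Fik_center hk hK hO hxO
      have hPT : P ∉ T := by
        intro h1
        apply hOS
        refine Or.inr (Or.inr ?_)
        rw [Set.mem_iUnion₂]
        exact ⟨P, h1, hO, hP.ne_zero, hv.ne⟩
      have hPf : ∀ j, ¬ P ∣ (f j).map (Int.castRingHom k) := by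
        rintro j ⟨g, hg⟩
        have h1 := huO j
        rw [hgu j, hg, map_mul, map_mul] at h1
        have h2 : O.valuation (aeval x g) ≤ 1 := (O.valuation_le_one_iff _).2 (Fik_pol hk hO hxO g)
        have h3 : O.valuation (aeval x P) * O.valuation (aeval x g) < 1 :=
          (mul_le_of_le_one_right' h2).trans_lt hv
        exact absurd h1 h3.ne
      obtain ⟨hQ1, hQ2, hQ3, hQ4⟩ := hQ P hP hP'
      have hrel := supportK hk hx hf0 hu hNz hzg (hCC hβ) hP hP' hPf hQ1 hQ2 hQ3 hQ4 hO hxO hv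
        ⟨i, hne⟩
      have hOQ := H P hP hP' hPT hrel O (Q P) hO hQ1 hv hQ3
      exact hne (by rw [hOQ]; exact hQ4 i)
    choose e c w hw hhw using fun i => hs (h i) (hunit i)
    have hsum : ∑ i, sy (u i) (h i) ∈ V ⊔ CCk k x f := by
      refine Submodule.sum_mem _ fun i _ => ?_
      rw [hhw i, sy_mul_right, sy_prod_right, add_comm]
      refine Submodule.add_mem_sup ?_ ?_
      · refine Submodule.sum_mem _ fun j _ => ?_
        rw [sy_zpow_right]
        exact Submodule.smul_mem _ _ (Submodule.subset_span ⟨(i, j), rfl⟩)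
      · have hci : c i ≠ 0 := by
          intro h0
          have h1 := hw i
          rw [h0, map_zero] at h1
          exact (w i).ne_zero h1
        have h1 : w i = pqk x (C (c i)) := pqk_congr hx (C_ne_zero.2 hci) (by
          rw [hw i, aeval_C])
        rw [h1]
        exact hCu i _ (C_ne_zero.2 hci)
    have h1 : (N : ℚ) • z ∈ V ⊔ CCk k x f := by
      rw [hNz]
      exact Submodule.add_mem _ hsum (Submodule.mem_sup_right hβ)
    have hN' : (N : ℚ) ≠ 0 := by exact_mod_cast hN.ne'
    have h2 := Submodule.smul_mem (V ⊔ CCk k x f) ((N : ℚ)⁻¹) h1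
    rwa [smul_smul, inv_mul_cancel₀ hN', one_smul] at h2
  exact Module.Finite.of_injective (Submodule.inclusion hle) (Submodule.inclusion_injective hle)

end Pool.Agent.ETN
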