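import Pool.Agent.ETN.Defs

/-!
# A tame group fixes the constants if `[k : ℚ] < m`

The minimal period `d` of `t = τ c` under `σ` divides a power of the prime `m`, and the `d` iterates of `t` are
distinct roots of the minimal polynomial of `c` over `ℚ`, so `d ≤ [k : ℚ] < m` and `d = 1`.
-/

open scoped BigOperators Polynomial
open Polynomial

namespace Pool.Agent.ETN

open Pool.Agent.ETU

private theorem Fxc_iter {M : Type} [Field M] (σ : M ≃+* M) (t : M) (i : ℕ) :
    (σ : M → M)^[i] t = (σ ^ i) t := by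
  induction i with
  | zero => rfl
  | succ i ih =>
    rw [Function.iterate_succ_apply', ih, pow_succ']
    rfl

private theorem Fxc_root {k M : Type} [Field k] [CharZero k] [Field M] [CharZero M] (φ : k →+* M)
    (c : k) : aeval (φ c) (minpoly ℚ c) = 0 := by
  have h := Polynomial.aeval_algHom_apply φ.toRatAlgHom c (minpoly ℚ c)
  rw [minpoly.aeval, map_zero] at h
  exact h

theorem tame_const {p m : ℕ} [Fact p.Prime] (hm : m.Prime)
    {G : Subgroup (PadicAlgCl p ≃+* PadicAlgCl p)} (hT : TameG p m (PadicAlgCl p) G)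
    {k : Type} [Field k] [NumberField k] (hkm : Module.finrank ℚ k < m)
    (τ : k →+* PadicAlgCl p) (c : k) {σ : PadicAlgCl p ≃+* PadicAlgCl p} (hσ : σ ∈ G) :
    σ (τ c) = τ c := by
  classical
  obtain ⟨j, hj⟩ := hT.ord σ hσ (τ c)
  have hper : Function.IsPeriodicPt σ (m ^ j) (τ c) := by
    show (σ : PadicAlgCl p → PadicAlgCl p)^[m ^ j] (τ c) = τ c
    rw [Fxc_iter]
    exact hj
  have hdvd : Function.minimalPeriod σ (τ c) ∣ m ^ j := hper.minimalPeriod_dvd
  have hint : IsIntegral ℚ c := Algebra.IsIntegral.isIntegral c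
  have hP0 : minpoly ℚ c ≠ 0 := minpoly.ne_zero hint
  have hdeg : (minpoly ℚ c).natDegree ≤ Module.finrank ℚ k := minpoly.natDegree_le c
  have hQ0 : (minpoly ℚ c).map (algebraMap ℚ (PadicAlgCl p)) ≠ 0 :=
    Polynomial.map_ne_zero hP0
  have hcard : Function.minimalPeriod σ (τ c) ≤ (minpoly ℚ c).natDegree := by
    have h1 : (Finset.range (Function.minimalPeriod σ (τ c))).card ≤
        ((minpoly ℚ c).map (algebraMap ℚ (PadicAlgCl p))).roots.toFinset.card := by
      refine Finset.card_le_card_of_injOn (fun i => (σ : PadicAlgCl p → PadicAlgCl p)^[i] (τ c))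
        ?_ ?_
      · intro i hi
        rw [Finset.mem_coe, Multiset.mem_toFinset, Polynomial.mem_roots hQ0, Polynomial.IsRoot.def,
          Polynomial.eval_map_algebraMap]
        show aeval ((σ : PadicAlgCl p → PadicAlgCl p)^[i] (τ c)) (minpoly ℚ c) = 0
        rw [Fxc_iter]
        exact Fxc_root (((σ ^ i : PadicAlgCl p ≃+* PadicAlgCl p) :
          PadicAlgCl p →+* PadicAlgCl p).comp τ) c
      · intro a ha b hb hab
        rw [Finset.mem_coe, Finset.mem_range] at ha hb
        exact Function.iterate_injOn_Iio_minimalPeriod ha hb hab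
    rw [Finset.card_range] at h1
    refine h1.trans ((Multiset.toFinset_card_le _).trans ?_)
    exact (Polynomial.card_roots' _).trans (Polynomial.natDegree_map_le)
  obtain ⟨i, hi, hd⟩ := (Nat.dvd_prime_pow hm).1 hdvd
  have hlt : m ^ i < m ^ 1 := by
    rw [pow_one, ← hd]
    exact lt_of_le_of_lt (hcard.trans hdeg) hkm
  have hi0 : i = 0 := by
    have := (Nat.pow_lt_pow_iff_right hm.one_lt).1 hlt
    omega
  rw [hi0, pow_zero] at hd
  exact Function.minimalPeriod_eq_one_iff_isFixedPt.1 hd

end Pool.Agent.ETN
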