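import Pool.Agent.ETU.Fix
import Pool.Agent.ETN.Fxc
import Pool.Agent.ETN.Ork

/-!
# Irreducibility of `E(α, Y)` over a good point, over `k`

`R(α, Y)` has coefficients fixed by the tame group, has the root `w` and degree `< m`, so it is zero, and the
irreducible polynomial `P` with the root `α` divides all coefficients of `R`.
-/

open scoped BigOperators Polynomial
open Polynomial

namespace Pool.Agent.ETN

open Pool.Agent.ETU

variable {r : ℕ}

private theorem Irk_dvd {k M : Type} [Field k] [Field M] (τ : k →+* M) {P : k[X]}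
    (hP : Irreducible P) {α : M} (hα : P.eval₂ τ α = 0) {Q : k[X]} (hQ : Q.eval₂ τ α = 0) :
    P ∣ Q := by
  by_contra hn
  obtain ⟨u, v, huv⟩ := (hP.coprime_iff_not_dvd).2 hn
  have h := congrArg (eval₂ τ α) huv
  rw [eval₂_add, eval₂_mul, eval₂_mul, hα, hQ, mul_zero, mul_zero, add_zero, eval₂_one] at h
  exact zero_ne_one h

private theorem Irk_map {k M : Type} [Field k] [Field M] (τ : k →+* M) (σ : M ≃+* M) (α : M)
    (hτ : ∀ c, σ (τ c) = τ c) (Q : k[X]) : σ (Q.eval₂ τ α) = Q.eval₂ τ (σ α) := by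
  have h := Polynomial.hom_eval₂ Q τ (σ : M →+* M) α
  have h1 : (σ : M →+* M).comp τ = τ := RingHom.ext fun c => hτ c
  rw [h1] at h
  exact h

private theorem Irk_int {k M : Type} [Field k] [Field M] (τ : k →+* M) (α : M) (Q : ℤ[X]) :
    (Q.map (Int.castRingHom k)).eval₂ τ α = aeval α Q := by
  rw [eval₂_map, Polynomial.aeval_def]
  have h1 : τ.comp (Int.castRingHom k) = algebraMap ℤ M := RingHom.ext_int _ _
  rw [h1]

theorem good_irrK {p m : ℕ} [Fact p.Prime] (hm : m.Prime) (hpm : ¬ m ∣ p * (p - 1))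
    {G : Subgroup (PadicAlgCl p ≃+* PadicAlgCl p)} (hT : TameG p m (PadicAlgCl p) G)
    {k : Type} [Field k] [NumberField k] (hkm : Module.finrank ℚ k < m)
    (τ : k →+* PadicAlgCl p) {E : k[X][X]} (hE : RamK p m τ E) (f : Fin r → ℤ[X])
    (a : Fin r → ℤ) {P : k[X]} (hP : Irreducible P) (hrel : RelK k f a P) {α : PadicAlgCl p}
    (hα : P.eval₂ τ α = 0) (hg : Good f a α) (R : k[X][X]) (hR : R.natDegree < m)
    (w : PadicAlgCl p) (hw : ev3 τ α w E = 0) (hRw : ev3 τ α w R = 0) : ∀ i, P ∣ R.coeff i := by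
  have hp : p.Prime := Fact.out
  obtain ⟨e, h, he, hh, hwn⟩ := hE α w hg.1 hw
  obtain ⟨n, hn, hPn⟩ := hrel
  have hrel2 : (aeval α (Ap f a)) ^ n = (aeval α (Ap f (-a))) ^ n := by
    obtain ⟨S, hS⟩ := hPn
    have h1 := congrArg (eval₂ τ α) hS
    rw [eval₂_mul, hα, zero_mul, Irk_int, map_sub, map_pow, map_pow] at h1
    exact sub_eq_zero.1 h1
  have hfx : ∀ σ ∈ G, σ α = α := fun σ hσ => tame_fix hp hm hpm hT f a hn hrel2 hg hσ
  set φ : k[X] →+* PadicAlgCl p := eval₂RingHom τ α with hφ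
  have hφa : ∀ Q : k[X], φ Q = Q.eval₂ τ α := fun Q => rfl
  have hroot : (R.map φ).IsRoot w := by
    rw [IsRoot.def, eval_map]
    exact hRw
  have hfix : ∀ σ ∈ G, (R.map φ).map (σ : PadicAlgCl p →+* PadicAlgCl p) = R.map φ := by
    intro σ hσ
    ext i
    rw [coeff_map, coeff_map, hφa]
    show σ ((R.coeff i).eval₂ τ α) = _
    rw [Irk_map τ σ α (fun c => tame_const hm hT hkm τ c hσ), hfx σ hσ]
  have h0 : R.map φ = 0 := by
    by_contra hne
    have h1 := tame_degE hp hm hT he hwn hh hne hfix hroot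
    have h2 := natDegree_map_le (f := φ) (p := R)
    omega
  intro i
  refine Irk_dvd τ hP hα ?_
  have h1 := congrArg (fun q => coeff q i) h0
  simp only [coeff_map, coeff_zero] at h1
  rw [hφa] at h1
  exact h1

end Pool.Agent.ETN
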