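import Pool.Agent.ETN.Defs
import Pool.Agent.ETU.TaA

/-!
# The equation near the pole, over `k`

As `ETU.ram_of_weights`, through an embedding `τ` of `k`. The norm of `τ c₀`, `c₀` the leading coefficient of `e_0`, satisfies
`‖τ c₀‖ ^ e = ‖p‖ ^ j` where `e` is the degree of the minimal polynomial of `τ c₀` over `ℚ_[p]`, and `0 < e ≤ [k : ℚ] < m`.
-/

open scoped BigOperators Polynomial
open Polynomial

namespace Pool.Agent.ETN

open Pool.Agent.ETU

private theorem Wgk_slope {K : Type} [NormedField K] [IsUltrametricDist K] {m : ℕ} (hm : 0 < m)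
    (e : ℕ → K) (w : K) (h0 : 0 < ‖e 0‖) (he : ∀ b, 0 < b → b < m → ‖e b‖ ^ m < ‖e 0‖ ^ (m - b))
    (hw : w ^ m + ∑ b ∈ Finset.range m, e b * w ^ b = 0) : ‖w‖ ^ m = ‖e 0‖ := by
  rcases lt_trichotomy (‖w‖ ^ m) ‖e 0‖ with hlt | heq | hgt
  · exfalso
    -- `e 0` is small
    have h1 : e 0 = -∑ b ∈ Finset.range m, (if b + 1 = m then 1 else e (b + 1)) * w ^ (b + 1) := by
      obtain ⟨k, rfl⟩ : ∃ k, m = k + 1 := ⟨m - 1, by omega⟩
      rw [Finset.sum_range_succ' (fun b => e b * w ^ b)] at hw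
      rw [Finset.sum_range_succ]
      have h2 : ∑ x ∈ Finset.range k, (if x + 1 = k + 1 then 1 else e (x + 1)) * w ^ (x + 1)
          = ∑ x ∈ Finset.range k, e (x + 1) * w ^ (x + 1) := by
        refine Finset.sum_congr rfl fun x hx => ?_
        rw [if_neg]
        have := Finset.mem_range.1 hx
        omega
      rw [h2, if_pos rfl, one_mul]
      simp only [pow_zero, mul_one] at hw
      linear_combination hw
    obtain ⟨b, hb, hle⟩ := IsUltrametricDist.exists_norm_finsetSum_le_of_nonempty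
      (Finset.nonempty_range_iff.2 hm.ne')
      (fun b => (if b + 1 = m then 1 else e (b + 1)) * w ^ (b + 1))
    rw [← norm_neg, ← h1] at hle
    have hbm := Finset.mem_range.1 hb
    by_cases hb1 : b + 1 = m
    · rw [if_pos hb1, one_mul, hb1, norm_pow] at hle
      exact absurd hle (not_le.2 hlt)
    · rw [if_neg hb1, norm_mul, norm_pow] at hle
      have h3 := he (b + 1) (by omega) (by omega)
      have h4 : ‖e 0‖ ^ m ≤ ‖e (b + 1)‖ ^ m * (‖w‖ ^ m) ^ (b + 1) := by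
        calc ‖e 0‖ ^ m ≤ (‖e (b + 1)‖ * ‖w‖ ^ (b + 1)) ^ m :=
              pow_le_pow_left₀ (norm_nonneg _) hle m
          _ = ‖e (b + 1)‖ ^ m * (‖w‖ ^ m) ^ (b + 1) := by
              rw [mul_pow, ← pow_mul, ← pow_mul, mul_comm m (b + 1)]
      have h5 : (‖w‖ ^ m) ^ (b + 1) ≤ ‖e 0‖ ^ (b + 1) :=
        pow_le_pow_left₀ (by positivity) hlt.le _
      have h6 : ‖e (b + 1)‖ ^ m * (‖w‖ ^ m) ^ (b + 1) ≤ ‖e (b + 1)‖ ^ m * ‖e 0‖ ^ (b + 1) :=
        mul_le_mul_of_nonneg_left h5 (by positivity)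
      have h7 : ‖e (b + 1)‖ ^ m * ‖e 0‖ ^ (b + 1) < ‖e 0‖ ^ (m - (b + 1)) * ‖e 0‖ ^ (b + 1) :=
        mul_lt_mul_of_pos_right h3 (by positivity)
      have h8 : ‖e 0‖ ^ (m - (b + 1)) * ‖e 0‖ ^ (b + 1) = ‖e 0‖ ^ m := by
        rw [← pow_add]
        congr 1
        omega
      linarith
  · exact heq
  · exfalso
    have h1 : w ^ m = -∑ b ∈ Finset.range m, e b * w ^ b := by linear_combination hw
    obtain ⟨b, hb, hle⟩ := IsUltrametricDist.exists_norm_finsetSum_le_of_nonempty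
      (Finset.nonempty_range_iff.2 hm.ne') (fun b => e b * w ^ b)
    rw [← norm_neg, ← h1, norm_pow, norm_mul, norm_pow] at hle
    have hbm := Finset.mem_range.1 hb
    rcases Nat.eq_zero_or_pos b with rfl | hb0
    · rw [pow_zero, mul_one] at hle
      exact absurd hle (not_le.2 hgt)
    · have h3 := he b hb0 hbm
      have hwpos : 0 < ‖w‖ := by
        by_contra hc
        have h4 : ‖w‖ = 0 := le_antisymm (not_lt.1 hc) (norm_nonneg _)
        rw [h4, zero_pow hm.ne'] at hgt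
        linarith
      have h4 : ‖w‖ ^ (m - b) ≤ ‖e b‖ := by
        have h5 : ‖w‖ ^ m = ‖w‖ ^ (m - b) * ‖w‖ ^ b := by
          rw [← pow_add]
          congr 1
          omega
        rw [h5] at hle
        exact le_of_mul_le_mul_right hle (by positivity)
      have h5 : (‖w‖ ^ m) ^ (m - b) ≤ ‖e b‖ ^ m := by
        calc (‖w‖ ^ m) ^ (m - b) = (‖w‖ ^ (m - b)) ^ m := by
              rw [← pow_mul, ← pow_mul, mul_comm]
          _ ≤ ‖e b‖ ^ m := pow_le_pow_left₀ (by positivity) h4 m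
      have h6 : ‖e 0‖ ^ (m - b) ≤ (‖w‖ ^ m) ^ (m - b) :=
        pow_le_pow_left₀ h0.le hgt.le _
      linarith

private theorem Wgk_dom {K k : Type} [NormedField K] [IsUltrametricDist K] [Field k] (τ : k →+* K)
    (q : k[X]) : ∃ R : ℝ, ∀ x : K, R ≤ ‖x‖ →
      ‖q.eval₂ τ x‖ = ‖τ q.leadingCoeff‖ * ‖x‖ ^ q.natDegree := by
  by_cases hq : q = 0
  · exact ⟨0, fun x _ => by simp [hq]⟩
  have hc : 0 < ‖τ q.leadingCoeff‖ := by
    rw [norm_pos_iff]
    exact fun h => hq (leadingCoeff_eq_zero.1 (τ.injective (by rw [h, map_zero])))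
  refine ⟨1 + ∑ i ∈ Finset.range q.natDegree,
    ‖τ (q.coeff i)‖ / ‖τ q.leadingCoeff‖, fun x hx => ?_⟩
  have hx1 : 1 ≤ ‖x‖ := by
    refine le_trans ?_ hx
    have : 0 ≤ ∑ i ∈ Finset.range q.natDegree,
      ‖τ (q.coeff i)‖ / ‖τ q.leadingCoeff‖ :=
      Finset.sum_nonneg fun i _ => by positivity
    linarith
  have hx0 : 0 < ‖x‖ := by linarith
  have h1 : q.eval₂ τ x = (∑ i ∈ Finset.range q.natDegree, τ (q.coeff i) * x ^ i)
      + τ q.leadingCoeff * x ^ q.natDegree := by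
    rw [eval₂_eq_sum_range, Finset.sum_range_succ, leadingCoeff]
  have h2 : ‖∑ i ∈ Finset.range q.natDegree, τ (q.coeff i) * x ^ i‖
      < ‖τ q.leadingCoeff * x ^ q.natDegree‖ := by
    rcases Nat.eq_zero_or_pos q.natDegree with h0 | h0
    · rw [h0, Finset.range_zero, Finset.sum_empty, norm_zero, pow_zero, mul_one]
      exact hc
    · obtain ⟨i, hi, hle⟩ := IsUltrametricDist.exists_norm_finsetSum_le_of_nonempty
        (Finset.nonempty_range_iff.2 h0.ne') (fun i => τ (q.coeff i) * x ^ i)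
      refine lt_of_le_of_lt hle ?_
      rw [norm_mul, norm_pow, norm_mul, norm_pow]
      have him := Finset.mem_range.1 hi
      have h3 : ‖x‖ ^ q.natDegree = ‖x‖ ^ (q.natDegree - 1 - i) * ‖x‖ * ‖x‖ ^ i := by
        rw [← pow_succ, ← pow_add]
        congr 1
        omega
      have h4 : ‖τ (q.coeff i)‖ / ‖τ q.leadingCoeff‖ < ‖x‖ := by
        have h5 : ‖τ (q.coeff i)‖ / ‖τ q.leadingCoeff‖
            ≤ ∑ i ∈ Finset.range q.natDegree,
            ‖τ (q.coeff i)‖ / ‖τ q.leadingCoeff‖ :=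
          Finset.single_le_sum (f := fun i => ‖τ (q.coeff i)‖ /
            ‖τ q.leadingCoeff‖) (fun i _ => by positivity) hi
        linarith
      rw [div_lt_iff₀ hc] at h4
      have h5 : 1 ≤ ‖x‖ ^ (q.natDegree - 1 - i) := one_le_pow₀ hx1
      have h6 : 0 < ‖x‖ ^ i := by positivity
      calc ‖τ (q.coeff i)‖ * ‖x‖ ^ i
          < ‖x‖ * ‖τ q.leadingCoeff‖ * ‖x‖ ^ i := mul_lt_mul_of_pos_right h4 h6
        _ = 1 * (‖τ q.leadingCoeff‖ * ‖x‖ * ‖x‖ ^ i) := by ring
        _ ≤ ‖x‖ ^ (q.natDegree - 1 - i) * (‖τ q.leadingCoeff‖ * ‖x‖ * ‖x‖ ^ i) :=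
            mul_le_mul_of_nonneg_right h5 (by positivity)
        _ = ‖τ q.leadingCoeff‖ * ‖x‖ ^ q.natDegree := by rw [h3]; ring
  rw [h1, IsUltrametricDist.norm_add_eq_max_of_norm_ne_norm h2.ne, max_eq_right h2.le, norm_mul,
    norm_pow]

/-- the norm of the image of an element of `k` -/
private theorem Wgk_val {p m : ℕ} [Fact p.Prime] {k : Type} [Field k] [NumberField k]
    (hkm : Module.finrank ℚ k < m) (τ : k →+* PadicAlgCl p) {c : k} (hc : c ≠ 0) :
    ∃ (e : ℕ) (v : ℤ), 0 < e ∧ e < m ∧ ‖τ c‖ ^ e = (p : ℝ) ^ (-v) := by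
  have hint : IsIntegral ℚ c := Algebra.IsIntegral.isIntegral c
  set L : IntermediateField ℚ_[p] (PadicAlgCl p) := ⊥ with hL
  set P : L[X] := (minpoly ℚ c).map (algebraMap ℚ L) with hP
  have hPm : P.Monic := (minpoly.monic hint).map _
  have hPd : P.natDegree = (minpoly ℚ c).natDegree := (minpoly.monic hint).natDegree_map _
  have hP0 : aeval (τ c) P = 0 := by
    rw [hP, aeval_map_algebraMap]
    have h1 : (aeval (τ c) (minpoly ℚ c) : PadicAlgCl p) = τ (aeval c (minpoly ℚ c)) := by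
      rw [aeval_def, aeval_def, hom_eval₂]
      congr 1
      exact Subsingleton.elim _ _
    rw [h1, minpoly.aeval, map_zero]
  have hintL : IsIntegral L (τ c) := ⟨P, hPm, hP0⟩
  have hle : (minpoly L (τ c)).natDegree ≤ P.natDegree :=
    natDegree_le_of_dvd (minpoly.dvd L (τ c) hP0) hPm.ne_zero
  have hdeg : (minpoly ℚ c).natDegree ≤ Module.finrank ℚ k := minpoly.natDegree_le c
  have hpos : 0 < (minpoly L (τ c)).natDegree := minpoly.natDegree_pos hintL
  have hn := norm_coeff_zero L (τ c)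
  obtain ⟨z, hz⟩ := IntermediateField.mem_bot.1 ((minpoly L (τ c)).coeff 0).2
  have hτ : 0 < ‖τ c‖ := by
    rw [norm_pos_iff]
    exact fun h => hc (τ.injective (by rw [h, map_zero]))
  have hz1 : ‖z‖ = ‖τ c‖ ^ (minpoly L (τ c)).natDegree := by
    rw [← hn, ← hz]
    exact (PadicAlgCl.norm_extends p z).symm
  have hz0 : z ≠ 0 := by
    intro h
    rw [h, norm_zero] at hz1
    have := pow_pos hτ (minpoly L (τ c)).natDegree
    linarith
  exact ⟨(minpoly L (τ c)).natDegree, z.valuation, hpos, by omega, by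
    rw [← hz1]
    exact Padic.norm_eq_zpow_neg_valuation hz0⟩

theorem ram_of_weightsK {p m : ℕ} [Fact p.Prime] (hm : m.Prime) {k : Type} [Field k]
    [NumberField k] (hkm : Module.finrank ℚ k < m) (τ : k →+* PadicAlgCl p) {E : k[X][X]}
    (hE : WtsK m E) :
    ∃ s₀ ρ : ℕ, ∀ s : ℕ, s₀ ≤ s → ¬ s ≡ ρ [MOD m] → ∀ c : ℚ, ‖(c : ℚ_[p])‖ = (p : ℝ) ^ s →
      RamK p m τ (E.map (compRingHom (C (c : k) * X))) := by
  classical
  have hp1 : (1 : ℝ) < p := by exact_mod_cast (Fact.out : p.Prime).one_lt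
  have hp0 : (0 : ℝ) < p := by linarith
  have he0 : E.coeff 0 ≠ 0 := by
    intro h
    apply hE.zero
    rw [h]
    simp
  have hnq : ∀ q : ℚ, ‖τ (q : k)‖ = ‖(q : ℚ_[p])‖ := by
    intro q
    have h1 : τ (q : k) = algebraMap ℚ_[p] (PadicAlgCl p) (q : ℚ_[p]) := by
      rw [map_ratCast, map_ratCast]
    rw [h1]
    exact PadicAlgCl.norm_extends p (q : ℚ_[p])
  have hnp : ‖((p : ℕ) : PadicAlgCl p)‖ = (p : ℝ)⁻¹ := by
    have h1 : ((p : ℕ) : PadicAlgCl p) = τ (((p : ℚ)) : k) := by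
      rw [map_ratCast, Rat.cast_natCast]
    rw [h1, hnq, Rat.cast_natCast, Padic.norm_p]
  choose R hR using fun b => Wgk_dom τ (E.coeff b)
  have hc0 : (E.coeff 0).leadingCoeff ≠ 0 := fun h => he0 (leadingCoeff_eq_zero.1 h)
  obtain ⟨e, v, hepos, hem, hv⟩ := Wgk_val hkm τ hc0
  have hc0n : 0 < ‖τ (E.coeff 0).leadingCoeff‖ := by
    rw [norm_pos_iff]
    exact fun h => hc0 (τ.injective (by rw [h, map_zero]))
  have : Fact m.Prime := ⟨hm⟩
  have hmde : ¬ m ∣ (E.coeff 0).natDegree * e := by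
    intro h
    rcases hm.dvd_mul.1 h with h | h
    · exact hE.zero h
    · exact absurd (Nat.le_of_dvd hepos h) (by omega)
  obtain ⟨ρ, hρ⟩ : ∃ ρ : ℕ, (m : ℤ) ∣ v - ρ * (((E.coeff 0).natDegree * e : ℕ) : ℤ) := by
    refine ⟨((v : ZMod m) * (((E.coeff 0).natDegree * e : ℕ) : ZMod m)⁻¹).val, ?_⟩
    rw [← ZMod.intCast_zmod_eq_zero_iff_dvd]
    push_cast
    rw [ZMod.natCast_zmod_val, mul_assoc]
    have h1 : (((E.coeff 0).natDegree : ZMod m) * (e : ZMod m)) ≠ 0 := by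
      rw [← Nat.cast_mul, Ne, ZMod.natCast_eq_zero_iff]
      exact hmde
    rw [inv_mul_cancel₀ h1, mul_one, sub_self]
  have hev : ∀ᶠ s : ℕ in Filter.atTop, ∀ b ∈ Finset.range m, R b ≤ (p : ℝ) ^ s ∧
      ‖τ (E.coeff b).leadingCoeff‖ ^ m /
        ‖τ (E.coeff 0).leadingCoeff‖ ^ (m - b) < (p : ℝ) ^ s := by
    rw [Filter.eventually_all_finset]
    intro b _
    have ht : Filter.Tendsto (fun s : ℕ => (p : ℝ) ^ s) Filter.atTop Filter.atTop :=
      tendsto_pow_atTop_atTop_of_one_lt hp1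
    exact (ht.eventually_ge_atTop _).and (ht.eventually_gt_atTop _)
  obtain ⟨s₀, hs₀⟩ := Filter.eventually_atTop.1 hev
  refine ⟨s₀, ρ, fun s hs hsρ c hc α w hα hw => ?_⟩
  have hx : ‖τ (c : k) * α‖ = (p : ℝ) ^ s := by
    rw [norm_mul, hα, mul_one, hnq, hc]
  have hsum : w ^ m + ∑ b ∈ Finset.range m,
      (E.coeff b).eval₂ τ (τ (c : k) * α) * w ^ b = 0 := by
    rw [ev3, coe_eval₂RingHom, eval₂_map, eval₂_eq_sum_range, hE.deg, Finset.sum_range_succ] at hw
    have h1 : ∀ q : k[X], ((eval₂RingHom τ α).comp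
        (compRingHom (C (c : k) * X))) q = q.eval₂ τ (τ (c : k) * α) := by
      intro q
      rw [RingHom.comp_apply, coe_compRingHom_apply, coe_eval₂RingHom, eval₂_comp, eval₂_mul,
        eval₂_C, eval₂_X]
    have h2 : E.coeff m = 1 := by
      have h3 := hE.mon.coeff_natDegree
      rwa [hE.deg] at h3
    simp only [h1, h2, eval₂_one, one_mul] at hw
    rw [add_comm]
    exact hw
  have hnorm : ∀ b, b < m → ‖(E.coeff b).eval₂ τ (τ (c : k) * α)‖
      = ‖τ (E.coeff b).leadingCoeff‖ * ((p : ℝ) ^ s) ^ (E.coeff b).natDegree := by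
    intro b hb
    rw [hR b _ (by rw [hx]; exact (hs₀ s hs b (Finset.mem_range.2 hb)).1), hx]
  have hps : 0 < (p : ℝ) ^ s := by positivity
  have hslope := Wgk_slope (K := PadicAlgCl p) hm.pos
    (fun b => (E.coeff b).eval₂ τ (τ (c : k) * α)) w
    (by
      rw [hnorm 0 hm.pos]
      positivity)
    (by
      intro b hb0 hbm
      rw [hnorm 0 hm.pos, hnorm b hbm]
      by_cases hb : E.coeff b = 0
      · rw [hb, leadingCoeff_zero, map_zero, norm_zero, zero_mul, zero_pow hm.pos.ne']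
        positivity
      · have h1 := hE.lt b hb0 hbm hb
        have h2 := (hs₀ s hs b (Finset.mem_range.2 hbm)).2
        rw [div_lt_iff₀ (by positivity)] at h2
        obtain ⟨k, hk⟩ : ∃ k, (E.coeff 0).natDegree * (m - b) = (E.coeff b).natDegree * m + 1 + k :=
          by
          obtain ⟨j, rfl⟩ : ∃ j, m = b + j := ⟨m - b, by omega⟩
          have h3 : b + j - b = j := by omega
          rw [h3]
          refine ⟨(E.coeff 0).natDegree * j - ((E.coeff b).natDegree * (b + j) + 1), ?_⟩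
          have h4 : (b + j) * (E.coeff b).natDegree < (E.coeff 0).natDegree * j := by
            have h5 : (b + j) * (E.coeff 0).natDegree
                = b * (E.coeff 0).natDegree + (E.coeff 0).natDegree * j := by ring
            rw [h5] at h1
            omega
          have h6 : (b + j) * (E.coeff b).natDegree = (E.coeff b).natDegree * (b + j) := by ring
          omega
        rw [mul_pow, mul_pow, ← pow_mul ((p : ℝ) ^ s) (E.coeff b).natDegree m,
          ← pow_mul ((p : ℝ) ^ s) (E.coeff 0).natDegree (m - b), hk, pow_add, pow_add, pow_one]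
        have h7 : 1 ≤ ((p : ℝ) ^ s) ^ k := one_le_pow₀ (one_le_pow₀ hp1.le)
        have h8 : 0 < ((p : ℝ) ^ s) ^ ((E.coeff b).natDegree * m) := by positivity
        calc ‖τ (E.coeff b).leadingCoeff‖ ^ m * ((p : ℝ) ^ s) ^ ((E.coeff b).natDegree * m)
            < (p : ℝ) ^ s * ‖τ (E.coeff 0).leadingCoeff‖ ^ (m - b) *
              ((p : ℝ) ^ s) ^ ((E.coeff b).natDegree * m) := mul_lt_mul_of_pos_right h2 h8
          _ = (‖τ (E.coeff 0).leadingCoeff‖ ^ (m - b) *
              (((p : ℝ) ^ s) ^ ((E.coeff b).natDegree * m) * (p : ℝ) ^ s)) * 1 := by ring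
          _ ≤ (‖τ (E.coeff 0).leadingCoeff‖ ^ (m - b) *
              (((p : ℝ) ^ s) ^ ((E.coeff b).natDegree * m) * (p : ℝ) ^ s)) *
              ((p : ℝ) ^ s) ^ k := mul_le_mul_of_nonneg_left h7 (by positivity)
          _ = ‖τ (E.coeff 0).leadingCoeff‖ ^ (m - b) *
              (((p : ℝ) ^ s) ^ ((E.coeff b).natDegree * m) * (p : ℝ) ^ s *
              ((p : ℝ) ^ s) ^ k) := by ring)
    hsum
  refine ⟨e, v - s * (((E.coeff 0).natDegree * e : ℕ) : ℤ), hepos, fun hdvd => hsρ ?_, ?_⟩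
  · have h1 : (m : ℤ) ∣ ((ρ : ℤ) - s) * (((E.coeff 0).natDegree * e : ℕ) : ℤ) := by
      have h2 := dvd_sub hdvd hρ
      have h3 : v - s * (((E.coeff 0).natDegree * e : ℕ) : ℤ) -
          (v - ρ * (((E.coeff 0).natDegree * e : ℕ) : ℤ))
          = ((ρ : ℤ) - s) * (((E.coeff 0).natDegree * e : ℕ) : ℤ) := by ring
      rwa [h3] at h2
    have h4 : (m : ℤ) ∣ (ρ : ℤ) - s := by
      rcases (Nat.prime_iff_prime_int.1 hm).dvd_or_dvd h1 with h | h
      · exact h
      · exact absurd (Int.natCast_dvd_natCast.1 h) hmde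
    exact (Nat.modEq_iff_dvd).2 h4
  · rw [pow_mul, hslope, hnorm 0 hm.pos, mul_pow, hv, hnp, ← pow_mul, ← pow_mul, inv_zpow',
      ← zpow_natCast (p : ℝ) (s * (_ * _)), ← zpow_add₀ hp0.ne']
    congr 1
    push_cast
    ring

end Pool.Agent.ETN
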