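import Pool.Agent.ETU.TaF
import Pool.Agent.ETN.Irk
import Pool.Agent.ETN.Unk
import Pool.Agent.ETN.Exk
import Pool.Agent.ETN.Wgk
import Pool.Agent.ETN.Eqk
import Pool.Agent.ETN.Fik
import Pool.Agent.ETN.Csk

/-!
# Assembly over a number field of constants
-/

open scoped BigOperators Polynomial
open Polynomial

namespace Pool.Agent.ETN

open Pool.Agent.ETU Pool.Agent.CST Pool.Agent.CSG Pool.Agent.ISG Pool.Agent.Helper11 Pool.Agent.ISI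
  Pool.Agent.CS2

/-- the geometric form over `k(X')` -/
theorem main_geomK {k K : Type} [Field k] [NumberField k] [Field K] [CharZero K] [Algebra k K]
    (hc : CstK k K) {X' w : K} (hX : Transcendental k X')
    (hK : FiniteDimensional (IntermediateField.adjoin ℚ {X'}) K)
    {m : ℕ} (hm : m.Prime) (hkm : Module.finrank ℚ k < m) {E : k[X][X]} (hE : E.Monic)
    (hd : E.natDegree = m) (hEw : ev3 (algebraMap k K) X' w E = 0)
    (hgen : IntermediateField.adjoin k {X', w} = ⊤)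
    {p₁ p₂ : ℕ} [Fact p₁.Prime] [Fact p₂.Prime] (h12 : p₁ ≠ p₂) (hm₁ : ¬ m ∣ p₁ * (p₁ - 1))
    (hm₂ : ¬ m ∣ p₂ * (p₂ - 1)) (τ₁ : k →+* PadicAlgCl p₁) (τ₂ : k →+* PadicAlgCl p₂)
    (hR₁ : RamK p₁ m τ₁ E) (hR₂ : RamK p₂ m τ₂ E) {r : ℕ}
    {f : Fin r → ℤ[X]} (hf₁ : Fam p₁ f) (hf₂ : Fam p₂ f) {u : Fin r → Kˣ}
    (hu : ∀ i, (u i : K) = aeval X' (f i)) :
    Module.Finite ℚ ↥(((⨆ i, slM (u i)) ⊔ LP X') ⊓ geomM K) := by
  have hk : Algebra.IsAlgebraic ℚ k := inferInstance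
  obtain ⟨G₁, hG₁⟩ := exists_tame (p := p₁) hm (by
    rintro rfl
    exact hm₁ (dvd_mul_right _ _))
  obtain ⟨G₂, hG₂⟩ := exists_tame (p := p₂) hm (by
    rintro rfl
    exact hm₂ (dvd_mul_right _ _))
  refine fin_tupleK hk hX hc hK hf₁.mon hu (exc_finiteK h12 τ₁ τ₂ hf₁ hf₂) ?_
  rintro P hP hP' hPT ⟨a, ha, hrel⟩ O O' hO hO' hv hv'
  have h1 : (∃ α : PadicAlgCl p₁, P.eval₂ τ₁ α = 0 ∧ Good f a α) ∨
      ∃ α : PadicAlgCl p₂, P.eval₂ τ₂ α = 0 ∧ Good f a α := by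
    by_contra hcon
    push Not at hcon
    exact hPT ⟨hP, hP', a, ha, hrel, hcon.1, hcon.2⟩
  rcases h1 with ⟨α, hα, hg⟩ | ⟨α, hα, hg⟩
  · exact place_eqK hk hX hE hd hEw hgen hP hP' τ₁ hα
      (fun R hR w' h2 h3 => good_irrK hm hm₁ hG₁ hkm τ₁ hR₁ f a hP' hrel hα hg R hR w' h2 h3)
      hO hO' hv hv'
  · exact place_eqK hk hX hE hd hEw hgen hP hP' τ₂ hα
      (fun R hR w' h2 h3 => good_irrK hm hm₂ hG₂ hkm τ₂ hR₂ f a hP' hrel hα hg R hR w' h2 h3)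
      hO hO' hv hv'

end Pool.Agent.ETN
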